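import Pool.Agent.Tang.Count

/-!
# Tangency graphs: the numerical form of the random choice
-/

set_option autoImplicit false

namespace Pool.Agent.Tang

open Finset

open Classical in
theorem abstract_main {A : Type} [Fintype A] [DecidableEq A] [Nonempty A] (con bd : A → A → Prop)
    (hbr : ∀ a, bd a a) (hbs : ∀ a b, bd a b → bd b a) (b0 : ℝ) (hb0 : 0 < b0)
    (hb : ∀ a, ((univ.filter (fun b => bd a b)).card : ℝ) ≤ b0) (mu D : ℝ) (hmu : 0 < mu)
    (hmu2 : mu ≤ 1 / 100) (hD : 0 < D)
    (H : ∀ S : Finset A, mu * Fintype.card A ≤ S.card → ∃ v ∈ S, D ≤ (S.filter (con v)).card)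
    (h1 : 1 ≤ mu * (Fintype.card A / (2 * b0)))
    (h2 : Fintype.card A * Real.log (1 / mu) / D ≤ 40 * (mu * (Fintype.card A / (2 * b0)))) :
    ∃ X : Finset A, (∀ x ∈ X, ∀ y ∈ X, x ≠ y → ¬ bd x y) ∧
      ∀ (k : ℕ) (col : A → Fin k), (∀ x ∈ X, ∀ y ∈ X, x ≠ y → con x y → col x ≠ col y) →
        1 / (100 * mu) ≤ k := by
  set a : ℝ := (Fintype.card A : ℝ) with ha
  have ha0 : 0 < a := by rw [ha]; exact_mod_cast Fintype.card_pos
  set M' : ℝ := a / (2 * b0) with hM'
  have hM'0 : 0 < M' := by positivity
  have hM'1 : 100 ≤ M' := by nlinarith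
  set M : ℕ := ⌊M'⌋₊ with hM
  have hMle : (M : ℝ) ≤ M' := Nat.floor_le hM'0.le
  have hMge : M' - 1 < M := Nat.sub_one_lt_floor M'
  set s : ℕ := ⌈41 * (mu * M')⌉₊ with hs
  have hsge : 41 * (mu * M') ≤ s := Nat.le_ceil _
  have hsle : (s : ℝ) < 41 * (mu * M') + 1 := Nat.ceil_lt_add_one (by positivity)
  have hs1 : (41 : ℝ) ≤ s := by linarith
  have hM2 : 2 ≤ M := by
    have : (99 : ℝ) < M := by linarith
    have : (2 : ℝ) ≤ M := by linarith
    exact_mod_cast this
  have hsM : s ≤ M := by
    have : (s : ℝ) ≤ M := by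
      have : mu * M' ≤ 1 / 100 * M' := mul_le_mul_of_nonneg_right hmu2 hM'0.le
      linarith
    exact_mod_cast this
  set c : ℝ := Real.log (1 / mu) / D with hc
  have hlog : 0 < Real.log (1 / mu) := by
    apply Real.log_pos
    rw [lt_div_iff₀ hmu]; linarith
  have hc0 : 0 ≤ c := by positivity
  have hcD : c * D = Real.log (1 / mu) := by rw [hc]; field_simp
  have hmD : a * Real.exp (-(c * D)) ≤ mu * a := by
    rw [hcD, Real.log_div (by norm_num) hmu.ne', Real.log_one, zero_sub, neg_neg,
      Real.exp_log hmu, mul_comm]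
  have hIT : ((IT con s univ).card : ℝ) ≤ (2 * (mu * a)) ^ s * Real.exp (c * a) := by
    have h3 := FF_le con (m := mu * a) (D := D) (c := c) (by positivity) hc0 H hmD s univ
    have h4 : ((IT con s univ).card : ℝ) ≤ (FF con s univ : ℝ) := by
      exact_mod_cast card_IT_le con s univ
    rw [card_univ] at h3
    exact h4.trans h3
  have hca : c * a ≤ s - 1 := by
    have : c * a = a * Real.log (1 / mu) / D := by rw [hc]; ring
    rw [this]
    linarith
  have hsum : ((M : ℝ) - 1) * (b0 / a) + (M.choose s : ℝ) * ((IT con s univ).card / a ^ s) < 1 := by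
    have t1 : ((M : ℝ) - 1) * (b0 / a) < 1 / 2 := by
      have e : M' * (b0 / a) = 1 / 2 := by rw [hM']; field_simp
      have : 0 < b0 / a := by positivity
      nlinarith
    have t2 : (M.choose s : ℝ) * ((IT con s univ).card / a ^ s) < 1 / 2 := by
      have hsf : (0 : ℝ) < s.factorial := by positivity
      have u1 : (M.choose s : ℝ) ≤ M' ^ s / s.factorial := by
        apply (Nat.choose_le_pow_div s M).trans
        apply div_le_div_of_nonneg_right _ hsf.le
        exact pow_le_pow_left₀ (by positivity) hMle s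
      have u2 : (IT con s univ).card / a ^ s ≤ (2 * mu) ^ s * Real.exp (s - 1) := by
        rw [div_le_iff₀ (by positivity)]
        apply hIT.trans
        have : (2 * (mu * a)) ^ s = (2 * mu) ^ s * a ^ s := by rw [← mul_pow, mul_assoc]
        rw [this]
        have u3 : Real.exp (c * a) ≤ Real.exp (s - 1) := Real.exp_le_exp.mpr hca
        calc (2 * mu) ^ s * a ^ s * Real.exp (c * a) ≤ (2 * mu) ^ s * a ^ s * Real.exp (s - 1) :=
              mul_le_mul_of_nonneg_left u3 (by positivity)
          _ = _ := by ring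
      have u4 : M' ^ s / s.factorial * ((2 * mu) ^ s * Real.exp (s - 1)) ≤ Real.exp (-1) := by
        have v1 : M' * (2 * mu) ≤ (2 / 41) * s := by linarith
        have v2 : (s : ℝ) ^ s / s.factorial ≤ Real.exp s :=
          Real.pow_div_factorial_le_exp (s : ℝ) (by positivity) s
        have v3 : Real.exp (s - 1) = Real.exp s * Real.exp (-1) := by
          rw [← Real.exp_add]; ring_nf
        have v4 : Real.exp (s : ℝ) = (Real.exp 1) ^ s := by
          rw [← Real.exp_nat_mul]; ring_nf
        calc M' ^ s / s.factorial * ((2 * mu) ^ s * Real.exp (s - 1))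
            = (M' * (2 * mu)) ^ s / s.factorial * Real.exp (s - 1) := by
              rw [mul_pow M' (2 * mu) s]; ring
          _ ≤ ((2 / 41) * s) ^ s / s.factorial * Real.exp (s - 1) := by
              apply mul_le_mul_of_nonneg_right _ (Real.exp_pos _).le
              apply div_le_div_of_nonneg_right _ hsf.le
              exact pow_le_pow_left₀ (by positivity) v1 s
          _ = (2 / 41) ^ s * (s ^ s / s.factorial) * Real.exp (s - 1) := by
              rw [mul_pow]; ring
          _ ≤ (2 / 41) ^ s * Real.exp s * Real.exp (s - 1) := by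
              apply mul_le_mul_of_nonneg_right _ (Real.exp_pos _).le
              exact mul_le_mul_of_nonneg_left v2 (by positivity)
          _ = ((2 / 41) * (Real.exp 1) ^ 2) ^ s * Real.exp (-1) := by
              rw [v3, v4, mul_pow, ← pow_mul, two_mul, pow_add]
              ring
          _ ≤ 1 * Real.exp (-1) := by
              apply mul_le_mul_of_nonneg_right _ (Real.exp_pos _).le
              apply pow_le_one₀ (by positivity)
              have := Real.exp_one_lt_d9
              have h0 := Real.exp_pos 1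
              nlinarith
          _ = Real.exp (-1) := one_mul _
      have u5 : Real.exp (-1) < 1 / 2 := by
        rw [Real.exp_neg]
        have := Real.exp_one_gt_d9
        rw [one_div]
        apply inv_strictAnti₀ (by norm_num)
        linarith
      calc (M.choose s : ℝ) * ((IT con s univ).card / a ^ s)
          ≤ M' ^ s / s.factorial * ((2 * mu) ^ s * Real.exp (s - 1)) := by
            apply mul_le_mul u1 u2 (by positivity) (by positivity)
        _ ≤ Real.exp (-1) := u4
        _ < 1 / 2 := u5
    linarith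
  obtain ⟨X, hX1, hX2⟩ := random_choice con bd hbr hbs b0 hb M s hM2 hsM hsum
  refine ⟨X, hX1, fun k col hcol => ?_⟩
  have h3 := hX2 k col hcol
  rw [div_le_iff₀ (by positivity)]
  have h4 : (0 : ℝ) ≤ k := by positivity
  have h5 : (s : ℝ) ≤ 42 * (mu * M') := by linarith
  have h6 : (M : ℝ) < 2 * k * (42 * (mu * M')) := by
    calc (M : ℝ) < 2 * k * s := h3
      _ ≤ 2 * k * (42 * (mu * M')) := mul_le_mul_of_nonneg_left h5 (by positivity)
  have h7 : M' * (99 / 100) ≤ M := by linarith
  have h8 : M' * (99 / 100) < M' * (84 * (k * mu)) := by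
    calc M' * (99 / 100) ≤ M := h7
      _ < 2 * k * (42 * (mu * M')) := h6
      _ = M' * (84 * (k * mu)) := by ring
  have h9 : (99 / 100 : ℝ) < 84 * (k * mu) := lt_of_mul_lt_mul_left h8 hM'0.le
  nlinarith

end Pool.Agent.Tang
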