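import Pool.Agent.Tang.Esymm

/-!
# Tangency graphs: Fourier analysis of the contact set in a power of a finite abelian group
-/

set_option autoImplicit false

namespace Pool.Agent.Tang

open Finset

section abstract

variable {A : Type} [AddCommGroup A] [Fintype A] [DecidableEq A]

/-- Hoffman type counting in a Cayley graph. -/
theorem cayley_count (W S : Finset A) (L : ℝ) (hL : 0 ≤ L)
    (hW : ∀ ψ : AddChar A ℂ, -L ≤ (∑ w ∈ W, ψ w).re) :
    (W.card : ℝ) * (S.card : ℝ) ^ 2 - L * Fintype.card A * S.card ≤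
      Fintype.card A * ∑ a ∈ S, ((S.filter (fun b => b - a ∈ W)).card : ℝ) := by
  classical
  have hsq : ∀ ψ : AddChar A ℂ, (∑ a ∈ S, ψ a) * (∑ b ∈ S, ψ (-b)) =
      ((Complex.normSq (∑ a ∈ S, ψ a) : ℝ) : ℂ) := by
    intro ψ
    rw [Complex.normSq_eq_conj_mul_self, mul_comm, map_sum]
    congr 1
    apply sum_congr rfl
    intro b _
    rw [AddChar.map_neg_eq_conj]
  -- the main identity
  have key : ∀ T : Finset A, ∑ ψ : AddChar A ℂ, (∑ w ∈ T, ψ w) *
      ((∑ a ∈ S, ψ a) * (∑ b ∈ S, ψ (-b))) =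
      (Fintype.card A : ℂ) * ∑ a ∈ S, ((S.filter (fun b => b - a ∈ T)).card : ℂ) := by
    intro T
    have h1 : ∀ ψ : AddChar A ℂ, (∑ w ∈ T, ψ w) * ((∑ a ∈ S, ψ a) * (∑ b ∈ S, ψ (-b))) =
        ∑ a ∈ S, ∑ b ∈ S, ∑ w ∈ T, ψ (w + a + -b) := by
      intro ψ
      rw [sum_mul_sum, mul_comm, sum_mul]
      apply sum_congr rfl
      intro a _
      rw [sum_mul]
      apply sum_congr rfl
      intro b _
      rw [mul_sum]
      apply sum_congr rfl
      intro w _
      rw [AddChar.map_add_eq_mul, AddChar.map_add_eq_mul]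
      ring
    simp_rw [h1]
    rw [sum_comm, mul_sum]
    apply sum_congr rfl
    intro a _
    rw [sum_comm]
    have h2 : ∀ b ∈ S, ∑ ψ : AddChar A ℂ, ∑ w ∈ T, ψ (w + a + -b) =
        if b - a ∈ T then (Fintype.card A : ℂ) else 0 := by
      intro b _
      rw [sum_comm]
      simp_rw [AddChar.sum_apply_eq_ite]
      have h3 : ∀ w : A, w + a + -b = 0 ↔ w = b - a := by
        intro w
        constructor
        · intro h
          have : w = w + a + -b + b - a := by abel
          rw [this, h]; abel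
        · intro h
          rw [h]; abel
      simp_rw [h3]
      rw [sum_ite_eq']
    rw [sum_congr rfl h2, ← sum_filter, sum_const, nsmul_eq_mul, mul_comm]
  have kW := key W
  have k0 := key {0}
  simp only [sum_singleton, AddChar.map_zero_eq_one, one_mul, mem_singleton] at k0
  simp_rw [hsq] at kW k0
  -- Parseval
  have p0 : ∑ ψ : AddChar A ℂ, Complex.normSq (∑ a ∈ S, ψ a) =
      (Fintype.card A : ℝ) * S.card := by
    have h1 : ∀ a ∈ S, ((S.filter (fun b => b - a = 0)).card : ℂ) = 1 := by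
      intro a ha
      have : S.filter (fun b => b - a = 0) = {a} := by
        ext b
        simp only [mem_filter, mem_singleton, sub_eq_zero]
        constructor
        · rintro ⟨_, h⟩; exact h
        · rintro rfl; exact ⟨ha, rfl⟩
      rw [this]; simp
    rw [sum_congr rfl h1] at k0
    have h2 := congrArg Complex.re k0
    simp only [Complex.re_sum, Complex.ofReal_re, sum_const, nsmul_eq_mul, mul_one] at h2
    rw [h2]
    simp
  have pW : ∑ ψ : AddChar A ℂ, (∑ w ∈ W, ψ w).re * Complex.normSq (∑ a ∈ S, ψ a) =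
      (Fintype.card A : ℝ) * ∑ a ∈ S, ((S.filter (fun b => b - a ∈ W)).card : ℝ) := by
    have h2 := congrArg Complex.re kW
    simp only [Complex.re_sum] at h2
    have h3 : ∀ ψ : AddChar A ℂ, ((∑ w ∈ W, ψ w) *
        ((Complex.normSq (∑ a ∈ S, ψ a) : ℝ) : ℂ)).re =
        (∑ w ∈ W, ψ w).re * Complex.normSq (∑ a ∈ S, ψ a) := by
      intro ψ
      rw [Complex.re_mul_ofReal]
    simp_rw [h3] at h2
    rw [h2]
    have h4 : (Fintype.card A : ℂ) * ∑ a ∈ S, ((S.filter (fun b => b - a ∈ W)).card : ℂ) =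
        (((Fintype.card A : ℝ) * ∑ a ∈ S, ((S.filter (fun b => b - a ∈ W)).card : ℝ) : ℝ) : ℂ) := by
      push_cast; rfl
    rw [h4, Complex.ofReal_re]
  rw [← pW]
  have h5 : ∑ ψ : AddChar A ℂ, ((∑ w ∈ W, ψ w).re + L) * Complex.normSq (∑ a ∈ S, ψ a) =
      ∑ ψ : AddChar A ℂ, (∑ w ∈ W, ψ w).re * Complex.normSq (∑ a ∈ S, ψ a) +
        L * (Fintype.card A * S.card) := by
    rw [← p0, mul_sum, ← sum_add_distrib]
    apply sum_congr rfl
    intro ψ _
    ring
  have h6 : (W.card : ℝ) * (S.card : ℝ) ^ 2 + L * (S.card : ℝ) ^ 2 ≤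
      ∑ ψ : AddChar A ℂ, ((∑ w ∈ W, ψ w).re + L) * Complex.normSq (∑ a ∈ S, ψ a) := by
    have h7 : ((∑ w ∈ W, (0 : AddChar A ℂ) w).re + L) *
        Complex.normSq (∑ a ∈ S, (0 : AddChar A ℂ) a) =
        (W.card : ℝ) * (S.card : ℝ) ^ 2 + L * (S.card : ℝ) ^ 2 := by
      simp [Complex.normSq_apply]
      ring
    rw [← h7]
    apply single_le_sum (f := fun ψ : AddChar A ℂ => ((∑ w ∈ W, ψ w).re + L) *
      Complex.normSq (∑ a ∈ S, ψ a)) _ (mem_univ (0 : AddChar A ℂ))
    intro ψ _
    apply mul_nonneg _ (Complex.normSq_nonneg _)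
    linarith [hW ψ]
  have h8 : 0 ≤ L * (S.card : ℝ) ^ 2 := by positivity
  nlinarith [h5, h6, h8]

end abstract

section product

variable {ι : Type} [Fintype ι] [DecidableEq ι] {Y : Type} [AddCommGroup Y] [Fintype Y]
  [DecidableEq Y]

/-- tuples with exactly `j` nonzero coordinates, all of them in `W0` -/
def WW (ι : Type) [Fintype ι] [DecidableEq ι] (W0 : Finset Y) (j : ℕ) : Finset (ι → Y) :=
  univ.filter (fun z => (univ.filter (fun i => z i ≠ 0)).card = j ∧ ∀ i, z i ≠ 0 → z i ∈ W0)

lemma WW_eq (W0 : Finset Y) (h0 : (0 : Y) ∉ W0) (j : ℕ) :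
    WW ι W0 j = (powersetCard j (univ : Finset ι)).biUnion
      (fun J => Fintype.piFinset (fun i => if i ∈ J then W0 else {0})) := by
  ext z
  simp only [WW, mem_filter, mem_univ, true_and, mem_biUnion, mem_powersetCard_univ,
    Fintype.mem_piFinset]
  constructor
  · rintro ⟨h1, h2⟩
    refine ⟨_, h1, fun i => ?_⟩
    by_cases hi : z i = 0
    · simp [hi]
    · simp [hi, h2 i hi]
  · rintro ⟨J, hJ, hz⟩
    have h1 : univ.filter (fun i => z i ≠ 0) = J := by
      ext i
      simp only [mem_filter, mem_univ, true_and]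
      have := hz i
      split_ifs at this with hi
      · exact ⟨fun _ => hi, fun _ h => h0 (h ▸ this)⟩
      · simp only [mem_singleton] at this
        exact ⟨fun h => absurd this h, fun h => absurd h hi⟩
    refine ⟨by rw [h1]; exact hJ, fun i hi => ?_⟩
    have := hz i
    split_ifs at this with h
    · exact this
    · simp only [mem_singleton] at this
      exact absurd this hi

omit [Fintype Y] [DecidableEq Y] in
lemma WW_disj (W0 : Finset Y) (h0 : (0 : Y) ∉ W0) (j : ℕ) :
    ((powersetCard j (univ : Finset ι) : Finset (Finset ι)) : Set (Finset ι)).PairwiseDisjoint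
      (fun J => Fintype.piFinset (fun i => if i ∈ J then W0 else ({0} : Finset Y))) := by
  intro J _ J' _ hne
  rw [Function.onFun, Finset.disjoint_left]
  intro z hz hz'
  apply hne
  ext i
  have h1 := Fintype.mem_piFinset.mp hz i
  have h2 := Fintype.mem_piFinset.mp hz' i
  constructor
  · intro hi
    by_contra hi'
    simp only [hi, hi', if_true, if_false, mem_singleton] at h1 h2
    exact h0 (h2 ▸ h1)
  · intro hi
    by_contra hi'
    simp only [hi, hi', if_true, if_false, mem_singleton] at h1 h2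
    exact h0 (h1 ▸ h2)

omit [Fintype ι] [Fintype Y] [DecidableEq Y] in
lemma char_sum (ψ : AddChar (ι → Y) ℂ) (s : Finset ι) (f : ι → (ι → Y)) :
    ψ (∑ i ∈ s, f i) = ∏ i ∈ s, ψ (f i) := by
  induction s using Finset.induction_on with
  | empty => simp
  | insert a s ha ih => rw [sum_insert ha, prod_insert ha, AddChar.map_add_eq_mul, ih]

omit [Fintype Y] [DecidableEq Y] in
lemma char_prod (ψ : AddChar (ι → Y) ℂ) (z : ι → Y) :
    ψ z = ∏ i, ψ (Pi.single i (z i)) := by
  rw [← char_sum, Finset.univ_sum_single z]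

lemma sum_char_WW (W0 : Finset Y) (h0 : (0 : Y) ∉ W0) (j : ℕ) (ψ : AddChar (ι → Y) ℂ) :
    ∑ z ∈ WW ι W0 j, ψ z =
      ∑ J ∈ powersetCard j (univ : Finset ι), ∏ i ∈ J, ∑ w ∈ W0, ψ (Pi.single i w) := by
  rw [WW_eq W0 h0, sum_biUnion (WW_disj W0 h0 j)]
  apply sum_congr rfl
  intro J _
  have h1 : ∀ z ∈ Fintype.piFinset (fun i => if i ∈ J then W0 else ({0} : Finset Y)),
      ψ z = ∏ i, ψ (Pi.single i (z i)) := fun z _ => char_prod ψ z
  rw [sum_congr rfl h1]
  have h2 := Finset.prod_univ_sum (fun i => if i ∈ J then W0 else ({0} : Finset Y))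
    (fun i w => ψ (Pi.single i w))
  rw [← h2]
  rw [← Finset.prod_subset (Finset.subset_univ J)]
  · apply prod_congr rfl
    intro i hi
    simp [hi]
  · intro i _ hi
    simp [hi]

lemma card_WW (W0 : Finset Y) (h0 : (0 : Y) ∉ W0) (j : ℕ) :
    (WW ι W0 j).card = (Fintype.card ι).choose j * W0.card ^ j := by
  rw [WW_eq W0 h0, card_biUnion (fun J hJ J' hJ' h => WW_disj W0 h0 j hJ hJ' h)]
  have : ∀ J ∈ powersetCard j (univ : Finset ι),
      (Fintype.piFinset (fun i => if i ∈ J then W0 else ({0} : Finset Y))).card = W0.card ^ j := by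
    intro J hJ
    rw [Fintype.card_piFinset]
    rw [mem_powersetCard_univ] at hJ
    rw [← Finset.prod_subset (Finset.subset_univ J)]
    · rw [← hJ, ← prod_const]
      apply prod_congr rfl
      intro i hi
      simp [hi]
    · intro i _ hi
      simp [hi]
  rw [sum_congr rfl this]
  simp

/-- lower bound for the eigenvalues -/
theorem re_sum_char_WW [Nonempty ι] (W0 : Finset Y) (h0 : (0 : Y) ∉ W0)
    (hneg : ∀ w ∈ W0, -w ∈ W0) (l : ℕ) (ψ : AddChar (ι → Y) ℂ) :
    -((W0.card : ℝ) ^ (2 * l) * (((2 * l).factorial : ℝ) * Fintype.card ι) ^ l) ≤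
      (∑ z ∈ WW ι W0 (2 * l), ψ z).re := by
  rw [sum_char_WW W0 h0]
  set lam : ι → ℂ := fun i => ∑ w ∈ W0, ψ (Pi.single i w) with hlam
  have hreal : ∀ i, lam i = ((lam i).re : ℂ) := by
    intro i
    have h1 : (starRingEnd ℂ) (lam i) = lam i := by
      rw [hlam]
      simp only [map_sum]
      have h2 : ∀ w ∈ W0, (starRingEnd ℂ) (ψ (Pi.single i w)) = ψ (Pi.single i (-w)) := by
        intro w _
        rw [← AddChar.map_neg_eq_conj, Pi.single_neg]
      rw [sum_congr rfl h2]
      exact sum_nbij' (fun w => -w) (fun w => -w) hneg hneg (by simp) (by simp) (by simp)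
    exact (Complex.conj_eq_iff_re.mp h1).symm
  have habs : ∀ i, |(lam i).re| ≤ W0.card := by
    intro i
    calc |(lam i).re| ≤ ‖lam i‖ := Complex.abs_re_le_norm _
      _ ≤ ∑ w ∈ W0, ‖ψ (Pi.single i w)‖ := norm_sum_le _ _
      _ = W0.card := by simp
  have h3 : (∑ J ∈ powersetCard (2 * l) (univ : Finset ι), ∏ i ∈ J, lam i).re =
      ee (fun i => (lam i).re) (2 * l) := by
    have h4 : ∑ J ∈ powersetCard (2 * l) (univ : Finset ι), ∏ i ∈ J, lam i =
        ((ee (fun i => (lam i).re) (2 * l) : ℝ) : ℂ) := by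
      unfold ee
      push_cast
      apply sum_congr rfl
      intro J _
      apply prod_congr rfl
      intro i _
      exact hreal i
    rw [h4, Complex.ofReal_re]
  rw [h3]
  rcases Nat.eq_zero_or_pos W0.card with hc | hc
  · have hz : ∀ i, (lam i).re = 0 := by
      intro i
      have := habs i
      rw [hc] at this
      simpa using this
    rcases Nat.eq_zero_or_pos l with hl | hl
    · subst hl
      simp [ee_zero]
    · rw [hc]
      have h5 : ee (fun i => (lam i).re) (2 * l) = 0 := by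
        unfold ee
        apply sum_eq_zero
        intro J hJ
        rw [mem_powersetCard_univ] at hJ
        have : J.Nonempty := by
          rw [← card_pos]; omega
        obtain ⟨i, hi⟩ := this
        exact prod_eq_zero hi (hz i)
      rw [h5]
      simp only [Nat.cast_zero]
      rw [zero_pow (by omega)]
      simp
  · have hc' : (0 : ℝ) < W0.card := by exact_mod_cast hc
    have h6 : ee (fun i => (lam i).re) (2 * l) =
        (W0.card : ℝ) ^ (2 * l) * ee (fun i => (lam i).re / W0.card) (2 * l) := by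
      unfold ee
      rw [mul_sum]
      apply sum_congr rfl
      intro J hJ
      rw [mem_powersetCard_univ] at hJ
      rw [prod_div_distrib, prod_const, hJ]
      have hpow : (W0.card : ℝ) ^ (2 * l) ≠ 0 := (pow_pos hc' _).ne'
      rw [mul_div_assoc', mul_comm, mul_div_assoc, div_self hpow, mul_one]
    rw [h6, ← mul_neg]
    apply mul_le_mul_of_nonneg_left _ (pow_nonneg hc'.le _)
    apply ee_even_ge
    intro i
    rw [abs_div, abs_of_pos hc', div_le_one hc']
    exact habs i

end product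

end Pool.Agent.Tang
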