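import Mathlib

/-!
# Tangency graphs: polynomials of degree at most `t` over a prime field
-/

set_option autoImplicit false

namespace Pool.Agent.Tang

open Finset Polynomial

section

variable {q : ℕ} [Fact q.Prime] {t : ℕ}

/-- coefficient vectors -/
abbrev YY (q t : ℕ) := Fin (t + 1) → ZMod q

/-- evaluation -/
def ev (y : YY q t) (u : ZMod q) : ZMod q := ∑ i, y i * u ^ (i : ℕ)

lemma ev_zero (u : ZMod q) : ev (0 : YY q t) u = 0 := by simp [ev]

lemma ev_sub (y z : YY q t) (u : ZMod q) : ev (y - z) u = ev y u - ev z u := by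
  simp [ev, sub_mul, sum_sub_distrib]

lemma ev_neg (y : YY q t) (u : ZMod q) : ev (-y) u = -ev y u := by
  simp [ev, sum_neg_distrib]

/-- zeros -/
def Zr (y : YY q t) : Finset (ZMod q) := univ.filter (fun u => ev y u = 0)

/-- the polynomial of a coefficient vector -/
noncomputable def toP (y : YY q t) : (ZMod q)[X] := ∑ i, C (y i) * X ^ (i : ℕ)

lemma eval_toP (y : YY q t) (u : ZMod q) : (toP y).eval u = ev y u := by
  simp [toP, ev, eval_finsetSum]

lemma coeff_toP (y : YY q t) (i : Fin (t + 1)) : (toP y).coeff i = y i := by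
  simp only [toP, finsetSum_coeff, coeff_C_mul, coeff_X_pow]
  rw [sum_eq_single i]
  · simp
  · intro j _ hj
    have : (i : ℕ) ≠ j := fun h => hj (Fin.ext h.symm)
    simp [this]
  · simp

lemma natDegree_toP (y : YY q t) : (toP y).natDegree ≤ t := by
  unfold toP
  apply natDegree_sum_le_of_forall_le
  intro i _
  exact (natDegree_C_mul_X_pow_le _ _).trans (Nat.lt_succ_iff.mp i.2)

lemma card_Zr_le (y : YY q t) (hy : y ≠ 0) : (Zr y).card ≤ t := by
  have hp : toP y ≠ 0 := by
    intro h
    apply hy
    funext i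
    rw [← coeff_toP y i, h]
    simp
  refine (card_le_degree_of_subset_roots (p := toP y) (Z := Zr y) ?_).trans (natDegree_toP y)
  intro u hu
  rw [mem_val] at hu
  rw [mem_roots hp, IsRoot.def, eval_toP]
  simpa [Zr] using hu

lemma Zr_zero : Zr (0 : YY q t) = univ := by
  ext u; simp [Zr, ev_zero]

lemma Zr_neg (y : YY q t) : Zr (-y) = Zr y := by
  ext u; simp [Zr, ev_neg]

/-- polynomials with exactly `t` zeros -/
def W0 (q t : ℕ) [Fact q.Prime] : Finset (YY q t) := univ.filter (fun y => (Zr y).card = t)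

lemma zero_notMem_W0 (h : t < q) : (0 : YY q t) ∉ W0 q t := by
  simp only [W0, mem_filter, mem_univ, true_and, Zr_zero, card_univ, ZMod.card]
  omega

lemma neg_mem_W0 (y : YY q t) (hy : y ∈ W0 q t) : -y ∈ W0 q t := by
  simp only [W0, mem_filter, mem_univ, true_and, Zr_neg] at hy ⊢
  exact hy

/-- the vector of the polynomial with leading coefficient `c` and root set `T` -/
noncomputable def ofT (t : ℕ) (c : ZMod q) (T : Finset (ZMod q)) : YY q t :=
  fun i => (C c * ∏ a ∈ T, (X - C a)).coeff i

lemma ev_ofT (c : ZMod q) (T : Finset (ZMod q)) (hT : T.card = t) (u : ZMod q) :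
    ev (ofT t c T) u = c * ∏ a ∈ T, (u - a) := by
  have hdeg : (C c * ∏ a ∈ T, (X - C a)).natDegree < t + 1 := by
    rw [Nat.lt_succ_iff]
    apply (natDegree_C_mul_le _ _).trans
    rw [natDegree_finsetProd_X_sub_C_eq_card, hT]
  have h1 := eval_eq_sum_range' hdeg u
  have h2 : ev (ofT t c T) u = eval u (C c * ∏ a ∈ T, (X - C a)) := by
    rw [h1]
    exact (Finset.sum_range (fun i => (C c * ∏ a ∈ T, (X - C a)).coeff i * u ^ i)).symm
  rw [h2]
  simp [eval_prod]

lemma Zr_ofT (c : ZMod q) (hc : c ≠ 0) (T : Finset (ZMod q)) (hT : T.card = t) :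
    Zr (ofT t c T) = T := by
  ext u
  simp only [Zr, mem_filter, mem_univ, true_and, ev_ofT c T hT, mul_eq_zero, hc, false_or,
    prod_eq_zero_iff, sub_eq_zero]
  constructor
  · rintro ⟨a, ha, rfl⟩; exact ha
  · intro hu; exact ⟨u, hu, rfl⟩

lemma lead_ofT (c : ZMod q) (T : Finset (ZMod q)) (hT : T.card = t) :
    ofT t c T (Fin.last t) = c := by
  have hm : (∏ a ∈ T, (X - C a)).Monic := monic_prod_X_sub_C _ _
  have hd : (∏ a ∈ T, (X - C a)).natDegree = t := by
    rw [natDegree_finsetProd_X_sub_C_eq_card, hT]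
  simp only [ofT, Fin.val_last, coeff_C_mul]
  have : (∏ a ∈ T, (X - C a)).coeff t = 1 := by
    have := hm.coeff_natDegree
    rwa [hd] at this
  rw [this, mul_one]

lemma card_W0_ge : (q - 1) * q.choose t ≤ (W0 q t).card := by
  have h1 : ((univ.erase (0 : ZMod q)) ×ˢ powersetCard t (univ : Finset (ZMod q))).card =
      (q - 1) * q.choose t := by
    rw [card_product, card_erase_of_mem (mem_univ _), card_powersetCard, card_univ, ZMod.card]
  rw [← h1]
  apply card_le_card_of_injOn (fun p => ofT t p.1 p.2)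
  · rintro ⟨c, T⟩ h
    simp only [coe_product, Set.mem_prod, mem_coe, mem_erase, mem_univ, and_true,
      mem_powersetCard_univ] at h
    simp only [W0, coe_filter, mem_univ, true_and, Set.mem_ofPred_eq]
    rw [Zr_ofT c h.1 T h.2, h.2]
  · rintro ⟨c, T⟩ h ⟨c', T'⟩ h' he
    simp only [coe_product, Set.mem_prod, mem_coe, mem_erase, mem_univ, and_true,
      mem_powersetCard_univ] at h h'
    simp only at he
    have e1 : T = T' := by
      rw [← Zr_ofT c h.1 T h.2, he, Zr_ofT c' h'.1 T' h'.2]
    have e2 : c = c' := by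
      rw [← lead_ofT c T h.2, he, lead_ofT c' T' h'.2]
    rw [e1, e2]

/-- numerical form -/
lemma card_W0_ge' (hqt : 2 * t ≤ q) :
    (q : ℝ) ^ (t + 1) ≤ (2 ^ (t + 1) * t.factorial) * ((W0 q t).card : ℝ) := by
  have hq2 : 2 ≤ q := (Fact.out : q.Prime).two_le
  have hf : (0 : ℝ) < t.factorial := by positivity
  have h1 : ((q + 1 - t : ℕ) : ℝ) ^ t / t.factorial ≤ q.choose t := by
    have := Nat.pow_le_choose (α := ℝ) t q
    exact_mod_cast this
  have h2 : (q : ℝ) / 2 ≤ ((q + 1 - t : ℕ) : ℝ) := by
    rw [div_le_iff₀ (by norm_num)]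
    exact_mod_cast (by omega : q ≤ (q + 1 - t) * 2)
  have h3 : (q : ℝ) / 2 ≤ ((q - 1 : ℕ) : ℝ) := by
    rw [div_le_iff₀ (by norm_num)]
    exact_mod_cast (by omega : q ≤ (q - 1) * 2)
  have h5 : (q : ℝ) / 2 * (((q : ℝ) / 2) ^ t / t.factorial) ≤ (W0 q t).card := by
    calc (q : ℝ) / 2 * (((q : ℝ) / 2) ^ t / t.factorial)
        ≤ ((q - 1 : ℕ) : ℝ) * (q.choose t : ℝ) := by
          apply mul_le_mul h3 _ (by positivity) (by positivity)
          apply le_trans _ h1
          apply div_le_div_of_nonneg_right _ hf.le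
          exact pow_le_pow_left₀ (by positivity) h2 t
      _ ≤ _ := by exact_mod_cast card_W0_ge
  calc (q : ℝ) ^ (t + 1) = (2 ^ (t + 1) * t.factorial) *
        ((q : ℝ) / 2 * (((q : ℝ) / 2) ^ t / t.factorial)) := by
        rw [div_pow]
        field_simp
        ring
    _ ≤ _ := mul_le_mul_of_nonneg_left h5 (by positivity)

end

/-- tuples with few nonzero coordinates -/
lemma card_few {ι : Type} [Fintype ι] [DecidableEq ι] {Y : Type} [AddCommGroup Y] [Fintype Y]
    [DecidableEq Y] (r : ℕ) (hr : r ≤ Fintype.card ι) :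
    (univ.filter (fun z : ι → Y => (univ.filter (fun i => z i ≠ 0)).card ≤ r)).card ≤
      (Fintype.card ι).choose r * Fintype.card Y ^ r := by
  calc (univ.filter (fun z : ι → Y => (univ.filter (fun i => z i ≠ 0)).card ≤ r)).card
      ≤ ((powersetCard r (univ : Finset ι)).biUnion
        (fun J => Fintype.piFinset (fun i => if i ∈ J then univ else ({0} : Finset Y)))).card := by
        apply card_le_card
        intro z hz
        simp only [mem_filter, mem_univ, true_and] at hz
        obtain ⟨J, hJ1, _, hJ2⟩ := exists_subsuperset_card_eq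
          (subset_univ (univ.filter (fun i => z i ≠ 0))) hz (by rw [card_univ]; exact hr)
        rw [mem_biUnion]
        refine ⟨J, by rw [mem_powersetCard_univ]; exact hJ2, ?_⟩
        rw [Fintype.mem_piFinset]
        intro i
        by_cases hi : z i = 0
        · split_ifs
          · exact mem_univ _
          · simp [hi]
        · have : i ∈ J := hJ1 (by simp [hi])
          simp [this]
    _ ≤ ∑ J ∈ powersetCard r (univ : Finset ι),
        (Fintype.piFinset (fun i => if i ∈ J then univ else ({0} : Finset Y))).card :=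
        card_biUnion_le
    _ = ∑ _J ∈ powersetCard r (univ : Finset ι), Fintype.card Y ^ r := by
        apply sum_congr rfl
        intro J hJ
        rw [Fintype.card_piFinset]
        rw [mem_powersetCard_univ] at hJ
        rw [← Finset.prod_subset (Finset.subset_univ J)]
        · rw [← hJ, ← prod_const]
          apply prod_congr rfl
          intro i hi
          simp [hi, card_univ]
        · intro i _ hi
          simp [hi]
    _ = _ := by simp

end Pool.Agent.Tang
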