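import Pool.Agent.Tang.Abstract
import Pool.Agent.Tang.Fourier
import Pool.Agent.Tang.RS

/-!
# Tangency graphs: the combinatorial main theorem
-/

set_option autoImplicit false

namespace Pool.Agent.Tang

open Finset

section numeric

variable {q l : ℕ}

lemma pow_ge_two (hl : 1 ≤ l) (hq : (4 * l) ^ (18 * l) ≤ q) : 4 * l ≤ q := by
  calc 4 * l = (4 * l) ^ 1 := (pow_one _).symm
    _ ≤ (4 * l) ^ (18 * l) := Nat.pow_le_pow_right (by omega) (by omega)
    _ ≤ q := hq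

lemma kappa_le (hl : 1 ≤ l) (hq : (4 * l) ^ (18 * l) ≤ q) :
    2 ^ (4 * l + 1) * (4 * l).factorial ≤ q := by
  calc 2 ^ (4 * l + 1) * (4 * l).factorial ≤ (4 * l) ^ (4 * l + 1) * (4 * l) ^ (4 * l) :=
        Nat.mul_le_mul (Nat.pow_le_pow_left (by omega) _) (Nat.factorial_le_pow _)
    _ = (4 * l) ^ (8 * l + 1) := by rw [← pow_add]; congr 1; ring
    _ ≤ (4 * l) ^ (18 * l) := Nat.pow_le_pow_right (by omega) (by omega)
    _ ≤ q := hq

lemma G_le (hl : 1 ≤ l) (hq : (4 * l) ^ (18 * l) ≤ q) :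
    (200 * 4 ^ l * ((2 * l).factorial) ^ (l + 1)) ^ 2 ≤ q ^ l := by
  have h1 : 200 ≤ (4 * l) ^ (4 * l ^ 2) := by
    calc 200 ≤ 4 ^ 4 := by norm_num
      _ ≤ (4 * l) ^ 4 := Nat.pow_le_pow_left (by omega) _
      _ ≤ (4 * l) ^ (4 * l ^ 2) := Nat.pow_le_pow_right (by omega) (by nlinarith)
  have h2 : 4 ^ l ≤ (4 * l) ^ (l ^ 2) := by
    calc 4 ^ l ≤ (4 * l) ^ l := Nat.pow_le_pow_left (by omega) _
      _ ≤ (4 * l) ^ (l ^ 2) := Nat.pow_le_pow_right (by omega) (by nlinarith)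
  have h3 : ((2 * l).factorial) ^ (l + 1) ≤ (4 * l) ^ (4 * l ^ 2) := by
    calc ((2 * l).factorial) ^ (l + 1) ≤ ((2 * l) ^ (2 * l)) ^ (l + 1) :=
          Nat.pow_le_pow_left (Nat.factorial_le_pow _) _
      _ ≤ ((4 * l) ^ (2 * l)) ^ (l + 1) :=
          Nat.pow_le_pow_left (Nat.pow_le_pow_left (by omega) _) _
      _ = (4 * l) ^ (2 * l * (l + 1)) := by rw [← pow_mul]
      _ ≤ (4 * l) ^ (4 * l ^ 2) := Nat.pow_le_pow_right (by omega) (by nlinarith)
  calc (200 * 4 ^ l * ((2 * l).factorial) ^ (l + 1)) ^ 2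
      ≤ ((4 * l) ^ (4 * l ^ 2) * (4 * l) ^ (l ^ 2) * (4 * l) ^ (4 * l ^ 2)) ^ 2 :=
        Nat.pow_le_pow_left (Nat.mul_le_mul (Nat.mul_le_mul h1 h2) h3) _
    _ = ((4 * l) ^ (18 * l)) ^ l := by
        rw [← pow_add, ← pow_add, ← pow_mul, ← pow_mul]; congr 1; ring
    _ ≤ q ^ l := Nat.pow_le_pow_left hq _

lemma num_e2 (hl : 1 ≤ l) (hQ1 : (1 : ℝ) ≤ q) {y w kap c1 c2 mu b0 Wc : ℝ} (hy0 : 0 < y)
    (hw0 : 0 < w) (hkap0 : 0 < kap) (hkapq : kap ≤ q) (hyw : y ≤ kap * w) (hc10 : 0 < c1)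
    (hc20 : 0 < c2) (f2 : c1 * q ≤ c2 * (4 * l)) (f5 : (l : ℝ) * (4 * l) ≤ q)
    (f8 : y = (q : ℝ) ^ (2 * l) * (q : ℝ) ^ (2 * l) * q) (hb0 : b0 = c1 * y ^ (2 * l - 1))
    (hWc : Wc = c2 * w ^ (2 * l)) (f1 : (4 : ℝ) / (q : ℝ) ^ (2 * l) ≤ mu ^ 2) :
    b0 * (l * q) ≤ 10 * mu ^ 2 * Wc := by
  have hQ0 : (0 : ℝ) < q := by linarith
  have hl0 : (0 : ℝ) < l := by exact_mod_cast (by omega : 0 < l)
  have hWc0 : 0 < Wc := by rw [hWc]; positivity
  have f3 : y ^ (2 * l) ≤ kap ^ (2 * l) * w ^ (2 * l) := by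
    rw [← mul_pow]; exact pow_le_pow_left₀ hy0.le hyw _
  have f4 : kap ^ (2 * l) ≤ (q : ℝ) ^ (2 * l) := pow_le_pow_left₀ hkap0.le hkapq _
  have f6 : c1 * q * y ^ (2 * l) ≤ (4 * l) * (c2 * ((q : ℝ) ^ (2 * l) * w ^ (2 * l))) := by
    calc c1 * q * y ^ (2 * l) ≤ (c2 * (4 * l)) * (kap ^ (2 * l) * w ^ (2 * l)) :=
          mul_le_mul f2 f3 (by positivity) (by positivity)
      _ ≤ (c2 * (4 * l)) * ((q : ℝ) ^ (2 * l) * w ^ (2 * l)) := by
          apply mul_le_mul_of_nonneg_left _ (by positivity)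
          exact mul_le_mul_of_nonneg_right f4 (by positivity)
      _ = _ := by ring
  have f7 : y ^ (2 * l) = y ^ (2 * l - 1) * y := by
    rw [← pow_succ]; congr 1; omega
  have f9 : b0 * q * ((q : ℝ) ^ (2 * l) * q) ≤ (4 * l) * Wc := by
    rw [hWc, hb0]
    have k0 : ∀ p : ℝ, (q : ℝ) ^ (2 * l) * (c1 * p * q * ((q : ℝ) ^ (2 * l) * q)) =
        c1 * q * (p * y) := by
      intro p
      rw [f8]; ring
    have k2 : (q : ℝ) ^ (2 * l) * (c1 * y ^ (2 * l - 1) * q * ((q : ℝ) ^ (2 * l) * q)) ≤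
        (q : ℝ) ^ (2 * l) * ((4 * l) * (c2 * w ^ (2 * l))) := by
      rw [k0, ← f7]
      calc _ ≤ _ := f6
        _ = _ := by ring
    exact le_of_mul_le_mul_left k2 (by positivity)
  calc b0 * (l * q) = (b0 * q * ((q : ℝ) ^ (2 * l) * q)) * (l / ((q : ℝ) ^ (2 * l) * q)) := by
        field_simp
    _ ≤ ((4 * l) * Wc) * (l / ((q : ℝ) ^ (2 * l) * q)) :=
        mul_le_mul_of_nonneg_right f9 (by positivity)
    _ = ((l * (4 * l)) / q) * (1 / (q : ℝ) ^ (2 * l)) * Wc := by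
        field_simp
    _ ≤ 1 * (1 / (q : ℝ) ^ (2 * l)) * Wc := by
        apply mul_le_mul_of_nonneg_right _ hWc0.le
        apply mul_le_mul_of_nonneg_right _ (by positivity)
        rw [div_le_one hQ0]; exact f5
    _ ≤ 10 * mu ^ 2 * Wc := by
        apply mul_le_mul_of_nonneg_right _ hWc0.le
        have : 4 * (1 / (q : ℝ) ^ (2 * l)) ≤ mu ^ 2 := by
          rw [← mul_div_assoc, mul_one]; exact f1
        have k3 : 0 ≤ mu ^ 2 := by positivity
        linarith

lemma num_h1 (hl : 1 ≤ l) (hlq : 4 * l ≤ q) (hQ1 : (1 : ℝ) ≤ q) {y b0 mu a : ℝ}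
    (hy : y = (q : ℝ) ^ (4 * l + 1)) (hb00 : 0 < b0)
    (hb0le : b0 ≤ (q : ℝ) ^ (2 * l - 1) * y ^ (2 * l - 1)) (hay : a = y ^ q) (hmu0 : 0 < mu)
    (hmuge : 2 / (q : ℝ) ^ l ≤ mu) : 1 ≤ mu * (a / (2 * b0)) := by
  have hQ0 : (0 : ℝ) < q := by linarith
  have hy1 : 1 ≤ y := by rw [hy]; exact one_le_pow₀ hQ1
  have hy0 : 0 < y := by linarith
  have e1 : (q : ℝ) ^ (2 * l + 2) / 2 ≤ a / (2 * b0) := by
    rw [div_le_div_iff₀ (by norm_num) (by positivity)]
    have e2 : y ^ q = y ^ (q - (2 * l - 1)) * y ^ (2 * l - 1) := by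
      rw [← pow_add]; congr 1; omega
    have e3 : (q : ℝ) ^ (4 * l + 1) ≤ y ^ (q - (2 * l - 1)) := by
      calc (q : ℝ) ^ (4 * l + 1) = y ^ 1 := by rw [hy, pow_one]
        _ ≤ y ^ (q - (2 * l - 1)) := pow_le_pow_right₀ hy1 (by omega)
    have e4 : (q : ℝ) ^ (4 * l + 1) = (q : ℝ) ^ (2 * l + 2) * (q : ℝ) ^ (2 * l - 1) := by
      rw [← pow_add]; congr 1; omega
    rw [hay, e2]
    calc (q : ℝ) ^ (2 * l + 2) * (2 * b0)
        ≤ (q : ℝ) ^ (2 * l + 2) * (2 * ((q : ℝ) ^ (2 * l - 1) * y ^ (2 * l - 1))) := by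
          apply mul_le_mul_of_nonneg_left _ (by positivity)
          linarith
      _ = (q : ℝ) ^ (4 * l + 1) * y ^ (2 * l - 1) * 2 := by rw [e4]; ring
      _ ≤ y ^ (q - (2 * l - 1)) * y ^ (2 * l - 1) * 2 := by
          apply mul_le_mul_of_nonneg_right _ (by norm_num)
          exact mul_le_mul_of_nonneg_right e3 (by positivity)
  calc (1 : ℝ) ≤ (q : ℝ) ^ (l + 2) := one_le_pow₀ hQ1
    _ = 2 / (q : ℝ) ^ l * ((q : ℝ) ^ (2 * l + 2) / 2) := by
        have : (q : ℝ) ^ (2 * l + 2) = (q : ℝ) ^ l * (q : ℝ) ^ (l + 2) := by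
          rw [← pow_add]; congr 1; ring
        rw [this]; field_simp
    _ ≤ mu * (a / (2 * b0)) := mul_le_mul hmuge e1 (by positivity) hmu0.le

end numeric

/-- bad pairs: differ in fewer than `2 l` coordinates -/
def bdR {q t : ℕ} (l : ℕ) (x z : Fin q → YY q t) : Prop :=
  (univ.filter (fun i => (z - x) i ≠ 0)).card < 2 * l

/-- contact pairs -/
def conR {q t : ℕ} (W : Finset (Fin q → YY q t)) (x z : Fin q → YY q t) : Prop := z - x ∈ W

open Classical in
/-- The combinatorial main theorem. -/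
theorem comb_main (q l : ℕ) [Fact q.Prime] (hl : 1 ≤ l) (hq : (4 * l) ^ (18 * l) ≤ q) :
    ∃ X : Finset (Fin q → YY q (4 * l)),
      (∀ x ∈ X, ∀ y ∈ X, x ≠ y → 2 * l ≤ (univ.filter (fun i => (y - x) i ≠ 0)).card) ∧
      ∀ (k : ℕ) (col : (Fin q → YY q (4 * l)) → Fin k),
        (∀ x ∈ X, ∀ y ∈ X, x ≠ y → y - x ∈ WW (Fin q) (W0 q (4 * l)) (2 * l) →
          col x ≠ col y) → (q : ℝ) ^ l ≤ (k : ℝ) ^ 2 := by
  set t : ℕ := 4 * l with ht
  have hq4 : 4 * l ≤ q := pow_ge_two hl hq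
  have hq44 : 2 * t ≤ q := by
    have h0 : t ^ 2 ≤ q := (Nat.pow_le_pow_right (by omega) (by omega)).trans hq
    have h1 : 4 ≤ t := by omega
    nlinarith
  have hq1 : 1 ≤ q := by omega
  have : Nonempty (Fin q) := ⟨⟨0, by omega⟩⟩
  have hQ1 : (1 : ℝ) ≤ q := by exact_mod_cast hq1
  have hQ0 : (0 : ℝ) < q := by linarith
  -- cardinalities
  set y : ℝ := (q : ℝ) ^ (t + 1) with hy
  have hcY : (Fintype.card (YY q t) : ℝ) = y := by
    rw [Fintype.card_fun, ZMod.card, Fintype.card_fin, hy]; push_cast; rfl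
  have hy1 : 1 ≤ y := one_le_pow₀ hQ1
  have hy0 : 0 < y := by linarith
  set a : ℝ := (Fintype.card (Fin q → YY q t) : ℝ) with ha
  have hay : a = y ^ q := by
    rw [ha, Fintype.card_fun, Fintype.card_fin]; push_cast; rw [hcY]
  have ha0 : 0 < a := by rw [hay]; positivity
  set w : ℝ := ((W0 q t).card : ℝ) with hw
  set kap : ℝ := 2 ^ (t + 1) * t.factorial with hkap
  have hkap0 : 0 < kap := by positivity
  have hkapq : kap ≤ q := by
    rw [hkap]; exact_mod_cast kappa_le hl hq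
  have hyw : y ≤ kap * w := card_W0_ge' hq44
  have hw0 : 0 < w := by
    by_contra hcon
    push Not at hcon
    nlinarith
  have hlf : (1 : ℝ) ≤ (2 * l).factorial := by
    exact_mod_cast Nat.one_le_iff_ne_zero.mpr (Nat.factorial_ne_zero _)
  set f : ℝ := ((2 * l).factorial : ℝ) with hf
  set c2 : ℝ := (q.choose (2 * l) : ℝ) with hc2
  have hc2le : c2 ≤ (q : ℝ) ^ (2 * l) := by
    rw [hc2]; exact_mod_cast Nat.choose_le_pow q (2 * l)
  have hc2ge : ((q : ℝ) / 2) ^ (2 * l) / f ≤ c2 := by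
    have h1 : ((q + 1 - 2 * l : ℕ) : ℝ) ^ (2 * l) / (2 * l).factorial ≤ q.choose (2 * l) := by
      have := Nat.pow_le_choose (α := ℝ) (2 * l) q
      exact_mod_cast this
    apply le_trans _ h1
    apply div_le_div_of_nonneg_right _ (by positivity)
    apply pow_le_pow_left₀ (by positivity)
    rw [div_le_iff₀ (by norm_num)]
    exact_mod_cast (by omega : q ≤ (q + 1 - 2 * l) * 2)
  have hc20 : 0 < c2 := lt_of_lt_of_le (by positivity) hc2ge
  set W := WW (Fin q) (W0 q t) (2 * l) with hW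
  have hz : (0 : YY q t) ∉ W0 q t := zero_notMem_W0 (by omega)
  have hWc : (W.card : ℝ) = c2 * w ^ (2 * l) := by
    rw [hW, card_WW _ hz, Fintype.card_fin]; push_cast; rfl
  have hW0 : (0 : ℝ) < W.card := by rw [hWc]; positivity
  -- parameters
  set mu : ℝ := 2 * (f * q) ^ l / c2 with hmu
  have hmu0 : 0 < mu := by positivity
  set D : ℝ := mu * W.card / 2 with hD
  have hD0 : 0 < D := by positivity
  have hDL : D = w ^ (2 * l) * (f * q) ^ l := by
    rw [hD, hWc, hmu]; field_simp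
  have hmuge : 2 / (q : ℝ) ^ l ≤ mu := by
    rw [hmu, div_le_div_iff₀ (by positivity) hc20]
    have h1 : (q : ℝ) ^ (2 * l) = (q : ℝ) ^ l * (q : ℝ) ^ l := by rw [two_mul, pow_add]
    have h2 : (q : ℝ) ^ l ≤ (f * q) ^ l := pow_le_pow_left₀ hQ0.le (by nlinarith) l
    calc 2 * c2 ≤ 2 * ((q : ℝ) ^ l * (q : ℝ) ^ l) := by rw [← h1]; linarith
      _ ≤ 2 * ((f * q) ^ l * (q : ℝ) ^ l) := by
          apply mul_le_mul_of_nonneg_left _ (by norm_num)
          exact mul_le_mul_of_nonneg_right h2 (by positivity)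
      _ = _ := by ring
  -- G
  set G : ℝ := 200 * 4 ^ l * f ^ (l + 1) with hG
  have hG2 : G ^ 2 ≤ (q : ℝ) ^ l := by
    rw [hG, hf]; exact_mod_cast G_le hl hq
  have hG200 : 200 ≤ G := by
    have h1 : (1 : ℝ) ≤ 4 ^ l := one_le_pow₀ (by norm_num)
    have h2 : (1 : ℝ) ≤ f ^ (l + 1) := one_le_pow₀ hlf
    rw [hG]
    nlinarith
  have hG0 : 0 < G := by linarith
  have hmain : (q : ℝ) ^ l / G ≤ 1 / (100 * mu) := by
    rw [div_le_div_iff₀ hG0 (by positivity), hmu]
    have h1 : (q : ℝ) ^ l * (100 * (2 * (f * q) ^ l / c2)) =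
        (200 * f ^ l) * ((q : ℝ) ^ (2 * l) / c2) := by
      rw [mul_pow, two_mul l, pow_add]; ring
    rw [h1, one_mul]
    have h2 : (q : ℝ) ^ (2 * l) / c2 ≤ 4 ^ l * f := by
      rw [div_le_iff₀ hc20]
      rw [div_le_iff₀ (by positivity)] at hc2ge
      have h3 : ((q : ℝ) / 2) ^ (2 * l) = (q : ℝ) ^ (2 * l) / 4 ^ l := by
        rw [div_pow, pow_mul 2 2 l]; norm_num
      rw [h3, div_le_iff₀ (by positivity)] at hc2ge
      linarith
    calc (200 * f ^ l) * ((q : ℝ) ^ (2 * l) / c2) ≤ (200 * f ^ l) * (4 ^ l * f) :=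
          mul_le_mul_of_nonneg_left h2 (by positivity)
      _ = G := by rw [hG]; ring
  have hQG : G ≤ (q : ℝ) ^ l / G := by
    rw [le_div_iff₀ hG0]; linarith [hG2]
  have hmu100 : mu ≤ 1 / 100 := by
    have h1 : 200 ≤ 1 / (100 * mu) := by linarith
    rw [le_div_iff₀ (by positivity)] at h1
    linarith
  -- bad relation
  have hbr : ∀ x : Fin q → YY q t, bdR l x x := by
    intro x
    have : (univ.filter (fun i => (x - x) i ≠ 0)) = ∅ := by
      apply filter_false_of_mem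
      intro i _
      simp
    show (univ.filter (fun i => (x - x) i ≠ 0)).card < 2 * l
    rw [this]; simp; omega
  have hbs : ∀ x z : Fin q → YY q t, bdR l x z → bdR l z x := by
    intro x z h
    have : (univ.filter (fun i => (x - z) i ≠ 0)) = (univ.filter (fun i => (z - x) i ≠ 0)) := by
      ext i
      simp only [mem_filter, mem_univ, true_and, Pi.sub_apply, sub_ne_zero]
      exact ne_comm
    show (univ.filter (fun i => (x - z) i ≠ 0)).card < 2 * l
    rw [this]; exact h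
  set c1 : ℝ := (q.choose (2 * l - 1) : ℝ) with hc1
  have hc10 : 0 < c1 := by
    rw [hc1]; exact_mod_cast Nat.choose_pos (by omega)
  set b0 : ℝ := c1 * y ^ (2 * l - 1) with hb0
  have hb00 : 0 < b0 := by positivity
  have hb : ∀ x : Fin q → YY q t, ((univ.filter (fun z => bdR l x z)).card : ℝ) ≤ b0 := by
    intro x
    have h1 : (univ.filter (fun z => bdR l x z)).card ≤
        (univ.filter (fun z : Fin q → YY q t =>
          (univ.filter (fun i => z i ≠ 0)).card ≤ 2 * l - 1)).card := by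
      apply card_le_card_of_injOn (fun z => z - x)
      · intro z hz
        simp only [coe_filter, mem_univ, true_and, Set.mem_ofPred_eq, bdR] at hz ⊢
        omega
      · intro z _ z' _ hzz
        exact sub_left_injective hzz
    have h2 := card_few (ι := Fin q) (Y := YY q t) (2 * l - 1) (by rw [Fintype.card_fin]; omega)
    have h3 := h1.trans h2
    rw [Fintype.card_fin] at h3
    rw [hb0, hc1, ← hcY]
    exact_mod_cast h3
  have hb0le : b0 ≤ (q : ℝ) ^ (2 * l - 1) * y ^ (2 * l - 1) := by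
    rw [hb0]
    apply mul_le_mul_of_nonneg_right _ (by positivity)
    rw [hc1]; exact_mod_cast Nat.choose_le_pow q (2 * l - 1)
  -- first size condition
  have h1 : 1 ≤ mu * (a / (2 * b0)) :=
    num_h1 hl hq4 hQ1 (by rw [hy, ht]) hb00 hb0le hay hmu0 hmuge
  -- second size condition
  have h2 : a * Real.log (1 / mu) / D ≤ 40 * (mu * (a / (2 * b0))) := by
    have e1 : Real.log (1 / mu) ≤ l * q := by
      have f1 : 1 / mu ≤ (q : ℝ) ^ l := by
        rw [div_le_iff₀ hmu0]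
        have : (q : ℝ) ^ l * (2 / (q : ℝ) ^ l) = 2 := by field_simp
        have f2 : (q : ℝ) ^ l * (2 / (q : ℝ) ^ l) ≤ (q : ℝ) ^ l * mu :=
          mul_le_mul_of_nonneg_left hmuge (by positivity)
        linarith
      calc Real.log (1 / mu) ≤ Real.log ((q : ℝ) ^ l) :=
            Real.log_le_log (by positivity) f1
        _ = l * Real.log q := by rw [Real.log_pow]
        _ ≤ l * q := by
            apply mul_le_mul_of_nonneg_left _ (by positivity)
            exact (Real.log_le_sub_one_of_pos hQ0).trans (by linarith)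
    have e2 : b0 * (l * q) ≤ 10 * mu ^ 2 * W.card := by
      have f1 : (4 : ℝ) / (q : ℝ) ^ (2 * l) ≤ mu ^ 2 := by
        calc (4 : ℝ) / (q : ℝ) ^ (2 * l) = (2 / (q : ℝ) ^ l) ^ 2 := by
              rw [div_pow, ← pow_mul, mul_comm l 2]; norm_num
          _ ≤ mu ^ 2 := pow_le_pow_left₀ (by positivity) hmuge 2
      have f2 : c1 * q ≤ c2 * (4 * l) := by
        have g1 := Nat.choose_succ_right_eq q (2 * l - 1)
        have g2 : 2 * l - 1 + 1 = 2 * l := by omega
        rw [g2] at g1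
        have g3 : (c2 : ℝ) * (2 * l) = c1 * ((q - (2 * l - 1) : ℕ) : ℝ) := by
          rw [hc2, hc1]; exact_mod_cast g1
        have g4 : (q : ℝ) ≤ 2 * ((q - (2 * l - 1) : ℕ) : ℝ) := by
          exact_mod_cast (by omega : q ≤ 2 * (q - (2 * l - 1)))
        have g5 : c1 * q ≤ c1 * (2 * ((q - (2 * l - 1) : ℕ) : ℝ)) :=
          mul_le_mul_of_nonneg_left g4 hc10.le
        linarith
      have f5 : (l : ℝ) * (4 * l) ≤ q := by
        have : l * (4 * l) ≤ q := by
          have h0 : t ^ 2 ≤ q := (Nat.pow_le_pow_right (by omega) (by omega)).trans hq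
          rw [ht] at h0
          nlinarith
        exact_mod_cast this
      have f8 : y = (q : ℝ) ^ (2 * l) * (q : ℝ) ^ (2 * l) * q := by
        rw [hy, ht, ← pow_add, ← pow_succ]; congr 1; ring
      exact num_e2 hl hQ1 hy0 hw0 hkap0 hkapq hyw hc10 hc20 f2 f5 f8 hb0 hWc f1
    have e3 : b0 * Real.log (1 / mu) ≤ 10 * mu ^ 2 * W.card :=
      (mul_le_mul_of_nonneg_left e1 hb00.le).trans e2
    rw [div_le_iff₀ hD0]
    have e4 : 40 * (mu * (a / (2 * b0))) * D = a * (10 * mu ^ 2 * W.card / b0) := by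
      rw [hD]; field_simp; ring
    rw [e4]
    apply mul_le_mul_of_nonneg_left _ ha0.le
    rw [le_div_iff₀ hb00]
    linarith
  -- supersaturation
  have H : ∀ S : Finset (Fin q → YY q t), mu * a ≤ S.card →
      ∃ v ∈ S, D ≤ (S.filter (conR W v)).card := by
    intro S hS
    by_contra hcon
    push Not at hcon
    have hS0 : (0 : ℝ) < S.card := lt_of_lt_of_le (by positivity) hS
    have hSne : S.Nonempty := by
      rw [← card_pos]; exact_mod_cast hS0
    have hL : ∀ ψ : AddChar (Fin q → YY q t) ℂ, -D ≤ (∑ z ∈ W, ψ z).re := by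
      intro ψ
      have := re_sum_char_WW (ι := Fin q) (W0 q t) hz neg_mem_W0 l ψ
      rw [Fintype.card_fin] at this
      rw [hDL]; exact this
    have hcc := cayley_count W S D hD0.le hL
    have hlt : ∑ v ∈ S, ((S.filter (fun b => b - v ∈ W)).card : ℝ) < S.card * D := by
      calc ∑ v ∈ S, ((S.filter (fun b => b - v ∈ W)).card : ℝ) < ∑ _v ∈ S, D := by
            apply sum_lt_sum_of_nonempty hSne
            intro v hv
            have := hcon v hv
            have e : (S.filter (conR W v)).card = (S.filter (fun b => b - v ∈ W)).card := by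
              congr 1
              ext b
              simp [conR]
            rw [← e]; exact this
        _ = S.card * D := by simp
    have h3 : (W.card : ℝ) * (S.card : ℝ) ^ 2 - D * a * S.card < a * (S.card * D) :=
      lt_of_le_of_lt hcc (mul_lt_mul_of_pos_left hlt ha0)
    have h4 : (W.card : ℝ) * S.card < 2 * a * D := by
      have : (S.card : ℝ) * ((W.card : ℝ) * S.card) < S.card * (2 * a * D) := by nlinarith
      exact lt_of_mul_lt_mul_left this hS0.le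
    have h5 : 2 * a * D = W.card * (mu * a) := by rw [hD]; ring
    rw [h5] at h4
    have h6 := lt_of_mul_lt_mul_left h4 hW0.le
    linarith
  obtain ⟨X, hX1, hX2⟩ := abstract_main (conR W) (bdR l) hbr hbs b0 hb00 hb mu D hmu0 hmu100 hD0 H h1 h2
  refine ⟨X, fun x hx z hz hxz => ?_, fun k col hcol => ?_⟩
  · have := hX1 x hx z hz hxz
    simp only [bdR] at this
    omega
  · have h3 := hX2 k col hcol
    have h4 : (q : ℝ) ^ l / G ≤ k := hmain.trans h3
    have h5 : ((q : ℝ) ^ l / G) ^ 2 ≤ (k : ℝ) ^ 2 := pow_le_pow_left₀ (by positivity) h4 2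
    apply le_trans _ h5
    rw [div_pow, le_div_iff₀ (by positivity)]
    have h6 : (q : ℝ) ^ l * G ^ 2 ≤ (q : ℝ) ^ l * (q : ℝ) ^ l :=
      mul_le_mul_of_nonneg_left hG2 (by positivity)
    calc (q : ℝ) ^ l * G ^ 2 ≤ (q : ℝ) ^ l * (q : ℝ) ^ l := h6
      _ = _ := by ring

end Pool.Agent.Tang
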