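import Mathlib

/-!
# Tangency graphs: counting independent tuples and the random choice
-/

set_option autoImplicit false

namespace Pool.Agent.Tang

open Finset

section tuples

variable {A : Type} [Fintype A] [DecidableEq A] (con : A → A → Prop) [DecidableRel con]

/-- number of independent tuples, recursively -/
def FF : ℕ → Finset A → ℕ
  | 0, _ => 1
  | s + 1, U => ∑ v ∈ U, FF s (U.filter (fun b => ¬ con v b))

/-- independent tuples with entries in `U` -/
def IT (s : ℕ) (U : Finset A) : Finset (Fin s → A) :=
  univ.filter (fun f => (∀ i, f i ∈ U) ∧ ∀ i j, i < j → ¬ con (f i) (f j))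

lemma card_IT_le (s : ℕ) : ∀ U : Finset A, (IT con s U).card ≤ FF con s U := by
  induction s with
  | zero =>
    intro U
    rw [FF]
    calc (IT con 0 U).card ≤ (univ : Finset (Fin 0 → A)).card := card_le_card (subset_univ _)
      _ = 1 := by simp
  | succ s ih =>
    intro U
    rw [FF]
    calc (IT con (s + 1) U).card
        ≤ (U.sigma (fun v => IT con s (U.filter (fun b => ¬ con v b)))).card := by
          apply card_le_card_of_injOn (fun f => (⟨f 0, Fin.tail f⟩ : Σ _ : A, (Fin s → A)))
          · intro f hf
            simp only [IT, coe_filter, mem_univ, true_and, Set.mem_ofPred_eq] at hf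
            simp only [coe_sigma, Set.mem_sigma_iff, mem_coe]
            refine ⟨hf.1 0, ?_⟩
            simp only [IT, mem_filter, mem_univ, true_and]
            refine ⟨fun i => ⟨hf.1 _, hf.2 0 i.succ (Fin.succ_pos i)⟩, fun i j hij => ?_⟩
            exact hf.2 i.succ j.succ (Fin.succ_lt_succ_iff.mpr hij)
          · intro f _ g _ hfg
            simp only [Sigma.mk.injEq, heq_eq_eq] at hfg
            rw [← Fin.cons_self_tail f, ← Fin.cons_self_tail g, hfg.1, hfg.2]
      _ = ∑ v ∈ U, (IT con s (U.filter (fun b => ¬ con v b))).card := card_sigma _ _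
      _ ≤ _ := sum_le_sum (fun v _ => ih _)

omit [DecidableEq A] in
lemma FF_le {m D c : ℝ} (hm : 0 ≤ m) (hc : 0 ≤ c)
    (H : ∀ S : Finset A, m ≤ S.card → ∃ v ∈ S, D ≤ (S.filter (con v)).card)
    (hmD : (Fintype.card A : ℝ) * Real.exp (-(c * D)) ≤ m) (s : ℕ) :
    ∀ U : Finset A, (FF con s U : ℝ) ≤ (2 * m) ^ s * Real.exp (c * U.card) := by
  induction s with
  | zero =>
    intro U
    rw [FF]
    simp only [Nat.cast_one, pow_zero, one_mul]
    exact Real.one_le_exp (by positivity)
  | succ s ih =>
    intro U
    rw [FF]
    push_cast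
    set E : ℝ := (2 * m) ^ s * Real.exp (c * U.card) with hE
    have hE0 : 0 ≤ E := by positivity
    set bad := U.filter (fun v => ((U.filter (con v)).card : ℝ) < D) with hbad
    set good := U.filter (fun v => ¬ ((U.filter (con v)).card : ℝ) < D) with hgood
    have hbadc : (bad.card : ℝ) ≤ m := by
      by_contra hcon
      push Not at hcon
      obtain ⟨v, hv, hD⟩ := H bad hcon.le
      rw [hbad, mem_filter] at hv
      have h1 : ((bad.filter (con v)).card : ℝ) ≤ (U.filter (con v)).card := by
        exact_mod_cast card_le_card (filter_subset_filter _ (filter_subset _ _))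
      linarith [hv.2]
    have hsplit : ∑ v ∈ U, (FF con s (U.filter (fun b => ¬ con v b)) : ℝ) =
        ∑ v ∈ bad, (FF con s (U.filter (fun b => ¬ con v b)) : ℝ) +
        ∑ v ∈ good, (FF con s (U.filter (fun b => ¬ con v b)) : ℝ) :=
      (sum_filter_add_sum_filter_not U _ _).symm
    rw [hsplit]
    have h1 : ∑ v ∈ bad, (FF con s (U.filter (fun b => ¬ con v b)) : ℝ) ≤ m * E := by
      calc ∑ v ∈ bad, (FF con s (U.filter (fun b => ¬ con v b)) : ℝ)
          ≤ ∑ _v ∈ bad, E := by
            apply sum_le_sum
            intro v _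
            apply (ih _).trans
            apply mul_le_mul_of_nonneg_left _ (by positivity)
            apply Real.exp_le_exp.mpr
            apply mul_le_mul_of_nonneg_left _ hc
            exact_mod_cast card_le_card (filter_subset _ _)
        _ = bad.card * E := by simp
        _ ≤ m * E := mul_le_mul_of_nonneg_right hbadc hE0
    have h2 : ∑ v ∈ good, (FF con s (U.filter (fun b => ¬ con v b)) : ℝ) ≤ m * E := by
      calc ∑ v ∈ good, (FF con s (U.filter (fun b => ¬ con v b)) : ℝ)
          ≤ ∑ _v ∈ good, E * Real.exp (-(c * D)) := by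
            apply sum_le_sum
            intro v hv
            rw [hgood, mem_filter] at hv
            push Not at hv
            apply (ih _).trans
            rw [hE, mul_assoc, ← Real.exp_add]
            apply mul_le_mul_of_nonneg_left _ (by positivity)
            apply Real.exp_le_exp.mpr
            have h3 := card_filter_add_card_filter_not (s := U) (con v)
            have h4 : ((U.filter (con v)).card : ℝ) +
              ((U.filter (fun b => ¬ con v b)).card : ℝ) = U.card := by exact_mod_cast h3
            have h5 : ((U.filter (fun b => ¬ con v b)).card : ℝ) ≤ U.card - D := by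
              linarith [hv.2]
            nlinarith
        _ = good.card * (E * Real.exp (-(c * D))) := by simp
        _ ≤ Fintype.card A * (E * Real.exp (-(c * D))) := by
            apply mul_le_mul_of_nonneg_right _ (by positivity)
            exact_mod_cast card_le_univ _
        _ = (Fintype.card A * Real.exp (-(c * D))) * E := by ring
        _ ≤ m * E := mul_le_mul_of_nonneg_right hmD hE0
    calc _ ≤ m * E + m * E := add_le_add h1 h2
      _ = (2 * m) ^ (s + 1) * Real.exp (c * U.card) := by rw [hE]; ring

end tuples

section choice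

variable {A : Type} [Fintype A]

/-- the restriction of `g` to the `r`-set `S`, read in increasing order, has property `P` -/
def HasP {M r : ℕ} (P : (Fin r → A) → Prop) (g : Fin M → A) (S : Finset (Fin M)) : Prop :=
  ∃ h : S.card = r, P (fun i => g (S.orderEmbOfFin h i))

lemma restrict_count {M r : ℕ} (P : (Fin r → A) → Prop) [DecidablePred P]
    (S : Finset (Fin M)) [DecidablePred (fun g : Fin M → A => HasP P g S)] :
    (univ.filter (fun g : Fin M → A => HasP P g S)).card ≤
      (univ.filter P).card * Fintype.card A ^ (M - r) := by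
  classical
  by_cases hS : S.card = r
  · have hc : Fintype.card ({i // i ∉ S} → A) = Fintype.card A ^ (M - r) := by
      rw [Fintype.card_fun]
      congr 1
      rw [Fintype.card_subtype_compl, Fintype.card_fin, Fintype.card_coe, hS]
    rw [← hc, ← card_univ, ← card_product]
    apply card_le_card_of_injOn
      (fun g => ((fun i => g (S.orderEmbOfFin hS i)), (fun i : {i // i ∉ S} => g i.1)))
    · intro g hg
      simp only [coe_filter, mem_univ, true_and, Set.mem_ofPred_eq] at hg
      simp only [coe_product, coe_filter, coe_univ, mem_univ, true_and, Set.mem_prod,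
        Set.mem_ofPred_eq, Set.mem_univ, and_true]
      obtain ⟨h, hP⟩ := hg
      exact hP
    · intro g _ g' _ hgg
      simp only [Prod.mk.injEq] at hgg
      funext i
      by_cases hi : i ∈ S
      · have : i ∈ Set.range (S.orderEmbOfFin hS) := by
          rw [range_orderEmbOfFin]; exact hi
        obtain ⟨k, hk⟩ := this
        rw [← hk]
        exact congrFun hgg.1 k
      · exact congrFun hgg.2 ⟨i, hi⟩
  · have : (univ.filter (fun g : Fin M → A => HasP P g S)) = ∅ := by
      apply filter_false_of_mem
      rintro g _ ⟨h, _⟩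
      exact hS h
    rw [this]
    simp

open Classical in
/-- number of `r`-sets of indices with property `P` -/
noncomputable def cnt {M r : ℕ} (P : (Fin r → A) → Prop) (g : Fin M → A) : ℕ :=
  ((powersetCard r (univ : Finset (Fin M))).filter (fun S => HasP P g S)).card

open Classical in
lemma sum_cnt_le {M r : ℕ} (P : (Fin r → A) → Prop) :
    ∑ g : Fin M → A, cnt P g ≤ M.choose r * ((univ.filter P).card * Fintype.card A ^ (M - r)) := by
  unfold cnt
  simp_rw [card_filter]
  rw [sum_comm]
  calc ∑ S ∈ powersetCard r (univ : Finset (Fin M)), ∑ g : Fin M → A, (if HasP P g S then 1 else 0)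
      ≤ ∑ _S ∈ powersetCard r (univ : Finset (Fin M)),
          ((univ.filter P).card * Fintype.card A ^ (M - r)) := by
        apply sum_le_sum
        intro S _
        rw [← card_filter]
        exact restrict_count P S
    _ = _ := by simp

open Classical in
/-- The random choice. -/
theorem random_choice [DecidableEq A] [Nonempty A] (con bd : A → A → Prop)
    (hbr : ∀ a, bd a a) (hbs : ∀ a b, bd a b → bd b a) (b0 : ℝ)
    (hb : ∀ a, ((univ.filter (fun b => bd a b)).card : ℝ) ≤ b0) (M s : ℕ) (hM : 2 ≤ M) (hsM : s ≤ M)
    (hsum : ((M : ℝ) - 1) * (b0 / Fintype.card A) +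
      (M.choose s : ℝ) * ((IT con s univ).card / (Fintype.card A : ℝ) ^ s) < 1) :
    ∃ X : Finset A, (∀ x ∈ X, ∀ y ∈ X, x ≠ y → ¬ bd x y) ∧
      ∀ (k : ℕ) (col : A → Fin k), (∀ x ∈ X, ∀ y ∈ X, x ≠ y → con x y → col x ≠ col y) →
        (M : ℝ) < 2 * k * s := by
  set a : ℝ := (Fintype.card A : ℝ) with ha
  have ha0 : 0 < a := by rw [ha]; exact_mod_cast Fintype.card_pos
  let P2 : (Fin 2 → A) → Prop := fun f => bd (f 0) (f 1)
  let Ps : (Fin s → A) → Prop := fun f => ∀ i j, i < j → ¬ con (f i) (f j)
  have hPs : ∀ inst : DecidablePred Ps, (@Finset.filter _ Ps inst univ).card =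
      (IT con s univ).card := by
    intro inst
    congr 1
    ext f
    simp [IT, Ps]
  have hP2 : ((univ.filter P2).card : ℝ) ≤ a * b0 := by
    have h1 : (univ.filter P2).card ≤
        ((univ : Finset A).sigma (fun x => univ.filter (fun b => bd x b))).card := by
      apply card_le_card_of_injOn (fun f => (⟨f 0, f 1⟩ : Σ _ : A, A))
      · intro f hf
        simp only [coe_filter, mem_univ, true_and, Set.mem_ofPred_eq, P2] at hf
        simp [hf]
      · intro f _ g _ hfg
        simp only [Sigma.mk.injEq, heq_eq_eq] at hfg
        funext i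
        fin_cases i
        · exact hfg.1
        · exact hfg.2
    rw [card_sigma] at h1
    calc ((univ.filter P2).card : ℝ) ≤
        ((∑ x : A, (univ.filter (fun b => bd x b)).card : ℕ) : ℝ) := by exact_mod_cast h1
      _ = ∑ x : A, ((univ.filter (fun b => bd x b)).card : ℝ) := by push_cast; rfl
      _ ≤ ∑ _x : A, b0 := sum_le_sum (fun x _ => hb x)
      _ = a * b0 := by simp [ha]
  -- existence of a good choice
  have hex : ∃ g : Fin M → A, (cnt P2 g : ℝ) < M / 2 ∧ cnt Ps g = 0 := by
    by_contra hcon
    push Not at hcon
    have h1 : ∀ g : Fin M → A, (1 : ℝ) ≤ 2 / M * cnt P2 g + cnt Ps g := by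
      intro g
      have hM0 : (0 : ℝ) < M := by exact_mod_cast (by omega : 0 < M)
      by_cases hg : (cnt P2 g : ℝ) < M / 2
      · have h2 := hcon g hg
        have h3 : (1 : ℝ) ≤ cnt Ps g := by exact_mod_cast Nat.one_le_iff_ne_zero.mpr h2
        have h4 : 0 ≤ 2 / (M : ℝ) * cnt P2 g := by positivity
        linarith
      · push Not at hg
        have h3 : (0 : ℝ) ≤ cnt Ps g := by positivity
        have h4 : (1 : ℝ) ≤ 2 / (M : ℝ) * cnt P2 g := by
          calc (1 : ℝ) = 2 / (M : ℝ) * (M / 2) := by field_simp
            _ ≤ _ := mul_le_mul_of_nonneg_left hg (by positivity)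
        linarith
    have h2 : a ^ M ≤ 2 / (M : ℝ) * (∑ g : Fin M → A, (cnt P2 g : ℝ)) +
        ∑ g : Fin M → A, (cnt Ps g : ℝ) := by
      calc a ^ M = ∑ _g : Fin M → A, (1 : ℝ) := by simp [ha]
        _ ≤ ∑ g : Fin M → A, (2 / (M : ℝ) * cnt P2 g + cnt Ps g) := sum_le_sum (fun g _ => h1 g)
        _ = _ := by rw [sum_add_distrib, mul_sum]
    have hM0 : (0 : ℝ) < M := by exact_mod_cast (by omega : 0 < M)
    have h3 : (∑ g : Fin M → A, (cnt P2 g : ℝ)) ≤
        ((M : ℝ) * (M - 1) / 2) * ((a * b0) * a ^ (M - 2)) := by
      have := sum_cnt_le (M := M) P2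
      have h4 : ((∑ g : Fin M → A, cnt P2 g : ℕ) : ℝ) ≤
          ((M.choose 2 * ((univ.filter P2).card * Fintype.card A ^ (M - 2)) : ℕ) : ℝ) := by
        exact_mod_cast this
      push_cast at h4
      rw [Nat.cast_choose_two] at h4
      apply h4.trans
      apply mul_le_mul_of_nonneg_left
      · exact mul_le_mul_of_nonneg_right hP2 (by positivity)
      · have : (1 : ℝ) ≤ M := by exact_mod_cast (by omega : 1 ≤ M)
        have h5 : 0 ≤ (M : ℝ) - 1 := by linarith
        positivity
    have h4 : (∑ g : Fin M → A, (cnt Ps g : ℝ)) ≤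
        (M.choose s : ℝ) * ((IT con s univ).card * a ^ (M - s)) := by
      have := sum_cnt_le (M := M) Ps
      rw [hPs] at this
      have h5 : ((∑ g : Fin M → A, cnt Ps g : ℕ) : ℝ) ≤
          ((M.choose s * ((IT con s univ).card * Fintype.card A ^ (M - s)) : ℕ) : ℝ) := by
        exact_mod_cast this
      push_cast at h5
      exact h5
    have e1 : a ^ M = a ^ (M - 2) * a ^ 2 := by rw [← pow_add]; congr 1; omega
    have e2 : a ^ M = a ^ (M - s) * a ^ s := by rw [← pow_add]; congr 1; omega
    have h5 : 2 / (M : ℝ) * (((M : ℝ) * (M - 1) / 2) * ((a * b0) * a ^ (M - 2))) =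
        (((M : ℝ) - 1) * (b0 / a)) * a ^ M := by
      rw [e1]
      field_simp
    have h6 : (M.choose s : ℝ) * ((IT con s univ).card * a ^ (M - s)) =
        ((M.choose s : ℝ) * ((IT con s univ).card / a ^ s)) * a ^ M := by
      rw [e2]
      field_simp
    have h7 : a ^ M ≤ (((M : ℝ) - 1) * (b0 / a) +
        (M.choose s : ℝ) * ((IT con s univ).card / a ^ s)) * a ^ M := by
      calc a ^ M ≤ _ := h2
        _ ≤ 2 / (M : ℝ) * (((M : ℝ) * (M - 1) / 2) * ((a * b0) * a ^ (M - 2))) +
            (M.choose s : ℝ) * ((IT con s univ).card * a ^ (M - s)) := by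
          apply add_le_add _ h4
          exact mul_le_mul_of_nonneg_left h3 (by positivity)
        _ = _ := by rw [h5, h6]; ring
    have h8 : 0 < a ^ M := by positivity
    nlinarith
  obtain ⟨g, hg1, hg2⟩ := hex
  -- kept indices
  let K : Finset (Fin M) := univ.filter (fun l => ∀ k, k < l → ¬ bd (g k) (g l))
  have hKc : (Kᶜ).card ≤ cnt P2 g := by
    have hch : ∀ l ∈ Kᶜ, ∃ k, k < l ∧ bd (g k) (g l) := by
      intro l hl
      rw [mem_compl] at hl
      simp only [K, mem_filter, mem_univ, true_and] at hl
      push Not at hl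
      exact hl
    choose! f hf using hch
    unfold cnt
    apply card_le_card_of_injOn (fun l => ({f l, l} : Finset (Fin M)))
    · intro l hl
      have h1 := hf l hl
      have hc : ({f l, l} : Finset (Fin M)).card = 2 := card_pair h1.1.ne
      simp only [coe_filter, Set.mem_ofPred_eq, mem_powersetCard_univ]
      refine ⟨hc, hc, ?_⟩
      have e0 : (({f l, l} : Finset (Fin M)).orderEmbOfFin hc) 0 = f l := by
        have := Finset.orderEmbOfFin_zero hc (by norm_num)
        have h2 : (⟨0, by norm_num⟩ : Fin 2) = 0 := rfl
        rw [h2] at this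
        rw [this]
        apply le_antisymm
        · exact Finset.min'_le _ _ (by simp)
        · apply Finset.le_min'
          intro y hy
          simp only [mem_insert, mem_singleton] at hy
          rcases hy with rfl | rfl
          · exact le_rfl
          · exact h1.1.le
      have e1 : (({f l, l} : Finset (Fin M)).orderEmbOfFin hc) 1 = l := by
        have := Finset.orderEmbOfFin_last hc (by norm_num)
        have h2 : (⟨2 - 1, by norm_num⟩ : Fin 2) = 1 := rfl
        rw [h2] at this
        rw [this]
        apply le_antisymm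
        · apply Finset.max'_le
          intro y hy
          simp only [mem_insert, mem_singleton] at hy
          rcases hy with rfl | rfl
          · exact h1.1.le
          · exact le_rfl
        · exact Finset.le_max' _ _ (by simp)
      show bd (g _) (g _)
      rw [e0, e1]
      exact h1.2
    · intro l hl l' hl' hll
      have h1 := (hf l hl).1
      have h1' := (hf l' hl').1
      simp only at hll
      have h2 : l ∈ ({f l', l'} : Finset (Fin M)) := by rw [← hll]; simp
      have h3 : l' ∈ ({f l, l} : Finset (Fin M)) := by rw [hll]; simp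
      simp only [mem_insert, mem_singleton] at h2 h3
      rcases h2 with h2 | h2
      · rcases h3 with h3 | h3
        · rw [← h2] at h1'; rw [← h3] at h1
          exact absurd h1 (not_lt.mpr h1'.le)
        · exact h3.symm
      · exact h2
  have hK : (M : ℝ) / 2 < K.card := by
    have h1 : K.card + (Kᶜ).card = M := by
      rw [card_add_card_compl, Fintype.card_fin]
    have h2 : (K.card : ℝ) + (Kᶜ).card = M := by exact_mod_cast h1
    have h3 : ((Kᶜ).card : ℝ) ≤ cnt P2 g := by exact_mod_cast hKc
    linarith
  have hKbd : ∀ k ∈ K, ∀ l ∈ K, k ≠ l → ¬ bd (g k) (g l) := by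
    intro k hk l hl hkl
    simp only [K, mem_filter, mem_univ, true_and] at hk hl
    rcases lt_or_gt_of_ne hkl with h | h
    · exact hl k h
    · exact fun hb => hk l h (hbs _ _ hb)
  refine ⟨K.image g, ?_, ?_⟩
  · intro x hx y hy hxy
    rw [mem_image] at hx hy
    obtain ⟨k, hk, rfl⟩ := hx
    obtain ⟨l, hl, rfl⟩ := hy
    exact hKbd k hk l hl (fun h => hxy (by rw [h]))
  · intro k col hcol
    have hclass : ∀ c : Fin k, (K.filter (fun l => col (g l) = c)).card < s := by
      intro c
      by_contra hge
      push Not at hge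
      obtain ⟨S, hS, hSc⟩ := exists_subset_card_eq hge
      have : 0 < cnt Ps g := by
        unfold cnt
        rw [card_pos]
        refine ⟨S, ?_⟩
        rw [mem_filter, mem_powersetCard_univ]
        refine ⟨hSc, hSc, ?_⟩
        intro i j hij hcon
        have hi := hS (S.orderEmbOfFin_mem hSc i)
        have hj := hS (S.orderEmbOfFin_mem hSc j)
        rw [mem_filter] at hi hj
        have hne : S.orderEmbOfFin hSc i ≠ S.orderEmbOfFin hSc j := by
          intro h
          exact hij.ne ((S.orderEmbOfFin hSc).injective h)
        have hgne : g (S.orderEmbOfFin hSc i) ≠ g (S.orderEmbOfFin hSc j) := by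
          intro h
          have := hKbd _ hi.1 _ hj.1 hne
          rw [h] at this
          exact this (hbr _)
        exact hcol _ (mem_image_of_mem g hi.1) _ (mem_image_of_mem g hj.1) hgne hcon
          (hi.2.trans hj.2.symm)
      omega
    have hsumc : K.card = ∑ c : Fin k, (K.filter (fun l => col (g l) = c)).card :=
      card_eq_sum_card_fiberwise (fun l _ => mem_univ _)
    have h1 : K.card ≤ k * s := by
      rw [hsumc]
      calc ∑ c : Fin k, (K.filter (fun l => col (g l) = c)).card ≤ ∑ _c : Fin k, s :=
            sum_le_sum (fun c _ => (hclass c).le)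
        _ = k * s := by simp
    have h2 : (K.card : ℝ) ≤ k * s := by exact_mod_cast h1
    linarith

end choice

end Pool.Agent.Tang
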