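import Mathlib

/-!
# Tangency graphs of systems of nonoverlapping unit balls: definitions
-/

set_option autoImplicit false

namespace Pool.Agent.Tang

/-- A system of nonoverlapping closed unit balls in `ℝ^d`, given by the set `C` of its centres:
the interiors of two different balls of the system are disjoint. -/
def IsUnitBallSystem {d : ℕ} (C : Set (EuclideanSpace ℝ (Fin d))) : Prop :=
  ∀ x ∈ C, ∀ y ∈ C, x ≠ y →
    Disjoint (interior (Metric.closedBall x 1)) (interior (Metric.closedBall y 1))

/-- The tangency graph: the vertices are the balls (represented by their centres), two balls are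
adjacent when their centres are at distance exactly `2`. -/
def tangencyGraph {d : ℕ} (C : Set (EuclideanSpace ℝ (Fin d))) : SimpleGraph C where
  Adj x y := dist (x : EuclideanSpace ℝ (Fin d)) y = 2
  symm := ⟨fun x y h => by rw [dist_comm]; exact h⟩
  loopless := ⟨fun x h => by simp at h⟩

end Pool.Agent.Tang
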