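import Mathlib

/-!
# Tangency graphs: lower bound for elementary symmetric functions

For real numbers `x i ∈ [-1, 1]`, `i` in a finite type with `N` elements, the elementary symmetric
function of even degree `2 l` is at least `-((2 l)! * N) ^ l`.
-/

set_option autoImplicit false

namespace Pool.Agent.Tang

open Finset

/-- elementary symmetric function of real numbers -/
noncomputable def ee {ι : Type} [Fintype ι] (x : ι → ℝ) (k : ℕ) : ℝ :=
  ∑ J ∈ powersetCard k (univ : Finset ι), ∏ i ∈ J, x i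

/-- power sum -/
noncomputable def pp {ι : Type} [Fintype ι] (x : ι → ℝ) (k : ℕ) : ℝ := ∑ i, x i ^ k

section

variable {ι : Type} [Fintype ι] (x : ι → ℝ)

lemma ee_eq_aeval (k : ℕ) : ee x k = MvPolynomial.aeval x (MvPolynomial.esymm ι ℝ k) := by
  simp [ee, MvPolynomial.esymm, map_sum, map_prod]

lemma pp_eq_aeval (k : ℕ) : pp x k = MvPolynomial.aeval x (MvPolynomial.psum ι ℝ k) := by
  simp [pp, MvPolynomial.psum, map_sum]

lemma newton (k : ℕ) : (k : ℝ) * ee x k = (-1) ^ (k + 1) *
    ∑ a ∈ (antidiagonal k).filter (fun a => a.1 < k), (-1) ^ a.1 * ee x a.1 * pp x a.2 := by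
  have h := congrArg (MvPolynomial.aeval x) (MvPolynomial.mul_esymm_eq_sum ι ℝ k)
  simp only [map_mul, map_natCast, map_pow, map_neg, map_one, map_sum] at h
  simp only [ee_eq_aeval, pp_eq_aeval]
  exact h

lemma newton' (k : ℕ) : ((k : ℝ) + 1) * ee x (k + 1) =
    ∑ r ∈ range (k + 1), (-1) ^ r * ee x (k - r) * pp x (r + 1) := by
  have h := newton x (k + 1)
  have h2 : (antidiagonal (k + 1)).filter (fun a => a.1 < k + 1) =
      (range (k + 1)).image (fun r => (k - r, r + 1)) := by
    ext ⟨a, b⟩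
    simp only [mem_filter, HasAntidiagonal.mem_antidiagonal, mem_image, mem_range, Prod.mk.injEq]
    constructor
    · rintro ⟨h1, h2⟩
      exact ⟨b - 1, by omega, by omega, by omega⟩
    · rintro ⟨r, hr, h1, h2⟩
      omega
  rw [h2, sum_image] at h
  · push_cast at h
    rw [h, mul_sum]
    apply sum_congr rfl
    intro r hr
    have hr' : r ≤ k := by simpa [Nat.lt_succ_iff] using hr
    have e : ((-1 : ℝ)) ^ (k + 1 + 1) * (-1) ^ (k - r) = (-1) ^ r := by
      rw [← pow_add]
      have : k + 1 + 1 + (k - r) = r + 2 * (k - r + 1) := by omega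
      rw [this, pow_add, pow_mul]
      norm_num
    calc (-1 : ℝ) ^ (k + 1 + 1) * ((-1) ^ (k - r) * ee x (k - r) * pp x (r + 1))
        = ((-1 : ℝ) ^ (k + 1 + 1) * (-1) ^ (k - r)) * ee x (k - r) * pp x (r + 1) := by ring
      _ = _ := by rw [e]
  · intro a ha b hb hab
    simp only [Prod.mk.injEq] at hab
    omega

lemma ee_zero : ee x 0 = 1 := by simp [ee]

variable (hx : ∀ i, |x i| ≤ 1)

include hx

lemma abs_pp_le (k : ℕ) : |pp x k| ≤ Fintype.card ι := by
  unfold pp
  calc |∑ i, x i ^ k| ≤ ∑ i, |x i ^ k| := abs_sum_le_sum_abs _ _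
    _ ≤ ∑ _i : ι, (1 : ℝ) := by
        apply sum_le_sum
        intro i _
        rw [abs_pow]
        exact pow_le_one₀ (abs_nonneg _) (hx i)
    _ = _ := by simp

lemma abs_ee_le {M : ℝ} (hM1 : 1 ≤ M) (hMs : |∑ i, x i| ≤ M) (hMN : (Fintype.card ι : ℝ) ≤ M ^ 2)
    (k : ℕ) : |ee x k| ≤ M ^ k := by
  induction k using Nat.strong_induction_on with
  | _ k ih =>
    rcases k with _ | k
    · simp [ee_zero]
    · have hM0 : 0 ≤ M := by linarith
      have h := newton' x k
      have hk : (0 : ℝ) < (k : ℝ) + 1 := by positivity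
      have h1 : ((k : ℝ) + 1) * |ee x (k + 1)| ≤ ((k : ℝ) + 1) * M ^ (k + 1) := by
        rw [← abs_of_pos hk, ← abs_mul, h, abs_of_pos hk]
        calc |∑ r ∈ range (k + 1), (-1) ^ r * ee x (k - r) * pp x (r + 1)|
            ≤ ∑ r ∈ range (k + 1), |(-1) ^ r * ee x (k - r) * pp x (r + 1)| :=
              abs_sum_le_sum_abs _ _
          _ ≤ ∑ _r ∈ range (k + 1), M ^ (k + 1) := by
              apply sum_le_sum
              intro r hr
              have hr' : r ≤ k := by simpa [Nat.lt_succ_iff] using hr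
              rw [abs_mul, abs_mul, abs_pow, abs_neg, abs_one, one_pow, one_mul]
              have hi := ih (k - r) (by omega)
              rcases Nat.eq_zero_or_pos r with h0 | h0
              · subst h0
                have : |pp x (0 + 1)| ≤ M := by simpa [pp] using hMs
                calc |ee x (k - 0)| * |pp x (0 + 1)| ≤ M ^ (k - 0) * M :=
                      mul_le_mul hi this (abs_nonneg _) (by positivity)
                  _ = M ^ (k + 1) := by rw [Nat.sub_zero, pow_succ]
              · have h2 : |pp x (r + 1)| ≤ M ^ 2 := (abs_pp_le x hx _).trans hMN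
                calc |ee x (k - r)| * |pp x (r + 1)| ≤ M ^ (k - r) * M ^ 2 :=
                      mul_le_mul hi h2 (abs_nonneg _) (by positivity)
                  _ = M ^ (k - r + 2) := by rw [pow_add]
                  _ ≤ M ^ (k + 1) := pow_le_pow_right₀ hM1 (by omega)
          _ = ((k : ℝ) + 1) * M ^ (k + 1) := by simp
      exact le_of_mul_le_mul_left h1 hk

lemma abs_ee_sub_le {M : ℝ} (hM1 : 1 ≤ M) (hMs : |∑ i, x i| ≤ M)
    (hMN : (Fintype.card ι : ℝ) ≤ M ^ 2)
    (k : ℕ) : |ee x (k + 2) - (∑ i, x i) ^ (k + 2) / (k + 2).factorial| ≤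
      (Fintype.card ι : ℝ) * M ^ k := by
  have hM0 : 0 ≤ M := by linarith
  set s : ℝ := ∑ i, x i with hs
  set N : ℝ := (Fintype.card ι : ℝ) with hN
  have hN0 : 0 ≤ N := by positivity
  have e1 : ee x 1 = s := by
    have := newton' x 0
    simp [ee_zero, pp] at this
    rw [this]
  have habs := abs_ee_le x hx hM1 hMs hMN
  -- the tail of the Newton sum
  have tail : ∀ k : ℕ, |((k : ℝ) + 2) * ee x (k + 2) - s * ee x (k + 1)| ≤
      ((k : ℝ) + 1) * (N * M ^ k) := by
    intro k
    have h := newton' x (k + 1)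
    rw [sum_range_succ'] at h
    simp only [pow_zero, one_mul, Nat.sub_zero] at h
    have h1 : pp x (0 + 1) = s := by simp [pp, hs]
    rw [h1] at h
    push_cast at h
    have h2 : ((k : ℝ) + 2) * ee x (k + 2) - s * ee x (k + 1) =
        ∑ r ∈ range (k + 1), (-1) ^ (r + 1) * ee x (k + 1 - (r + 1)) * pp x (r + 1 + 1) := by
      have : ((k : ℝ) + 1 + 1) * ee x (k + 1 + 1) = ((k : ℝ) + 2) * ee x (k + 2) := by ring_nf
      rw [this] at h
      have e2 : ∑ r ∈ range (k + 1), (-1) ^ (r + 1) * ee x (k + 1 - (r + 1)) * pp x (r + 1 + 1) =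
          ∑ r ∈ range (k + 1), (-1) ^ (r + 1) * ee x (k - r) * pp x (r + 1 + 1) := by
        apply sum_congr rfl
        intro r _
        rw [show k + 1 - (r + 1) = k - r by omega]
      rw [e2]
      rw [h]; ring
    rw [h2]
    calc |∑ r ∈ range (k + 1), (-1) ^ (r + 1) * ee x (k + 1 - (r + 1)) * pp x (r + 1 + 1)|
        ≤ ∑ r ∈ range (k + 1), |(-1) ^ (r + 1) * ee x (k + 1 - (r + 1)) * pp x (r + 1 + 1)| :=
          abs_sum_le_sum_abs _ _
      _ ≤ ∑ _r ∈ range (k + 1), N * M ^ k := by
          apply sum_le_sum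
          intro r hr
          have hr' : r ≤ k := by simpa [Nat.lt_succ_iff] using hr
          rw [abs_mul, abs_mul, abs_pow, abs_neg, abs_one, one_pow, one_mul, mul_comm]
          apply mul_le_mul (abs_pp_le x hx _) _ (abs_nonneg _) hN0
          exact (habs _).trans (pow_le_pow_right₀ hM1 (by omega))
      _ = ((k : ℝ) + 1) * (N * M ^ k) := by simp
  induction k with
  | zero =>
    have h := tail 0
    rw [e1] at h
    simp only [Nat.cast_zero, zero_add, pow_zero, mul_one, one_mul] at h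
    have h2 : ee x 2 - s ^ 2 / (2 : ℕ).factorial = (2 * ee x 2 - s * s) / 2 := by
      simp [Nat.factorial]; ring
    simp only [zero_add, pow_zero, mul_one]
    rw [h2, abs_div, abs_of_pos (by norm_num : (0 : ℝ) < 2)]
    linarith
  | succ k ih =>
    have h := tail (k + 1)
    have hk : (0 : ℝ) < (k : ℝ) + 3 := by positivity
    push_cast at h
    have hfac : ((k + 3).factorial : ℝ) = ((k : ℝ) + 3) * ((k + 2).factorial : ℝ) := by
      rw [Nat.factorial_succ]; push_cast; ring
    have hf0 : ((k + 2).factorial : ℝ) ≠ 0 := by positivity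
    have h3 : ((k : ℝ) + 3) * (ee x (k + 3) - s ^ (k + 3) / (k + 3).factorial) =
        (((k : ℝ) + 1 + 2) * ee x (k + 3) - s * ee x (k + 2)) +
          s * (ee x (k + 2) - s ^ (k + 2) / (k + 2).factorial) := by
      rw [hfac]
      field_simp
      ring
    have h4 : ((k : ℝ) + 3) * |ee x (k + 3) - s ^ (k + 3) / (k + 3).factorial| ≤
        ((k : ℝ) + 3) * (N * M ^ (k + 1)) := by
      rw [← abs_of_pos hk, ← abs_mul, abs_of_pos hk, h3]
      calc |(((k : ℝ) + 1 + 2) * ee x (k + 3) - s * ee x (k + 2)) +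
            s * (ee x (k + 2) - s ^ (k + 2) / (k + 2).factorial)|
          ≤ |((k : ℝ) + 1 + 2) * ee x (k + 3) - s * ee x (k + 2)| +
            |s * (ee x (k + 2) - s ^ (k + 2) / (k + 2).factorial)| := abs_add_le _ _
        _ ≤ ((k : ℝ) + 1 + 1) * (N * M ^ (k + 1)) + M * (N * M ^ k) := by
            apply add_le_add h
            rw [abs_mul]
            exact mul_le_mul hMs ih (abs_nonneg _) hM0
        _ = ((k : ℝ) + 3) * (N * M ^ (k + 1)) := by ring
    exact le_of_mul_le_mul_left h4 hk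

/-- main bound -/
theorem ee_even_ge [Nonempty ι] (l : ℕ) :
    -(((2 * l).factorial : ℝ) * Fintype.card ι) ^ l ≤ ee x (2 * l) := by
  rcases Nat.eq_zero_or_pos l with h0 | h0
  · subst h0; simp [ee_zero]
  obtain ⟨k, rfl⟩ : ∃ k, l = k + 1 := ⟨l - 1, by omega⟩
  set s : ℝ := ∑ i, x i with hs
  set N : ℝ := (Fintype.card ι : ℝ) with hN
  have hN1 : 1 ≤ N := by
    rw [hN]; exact_mod_cast Fintype.card_pos
  set F : ℝ := ((2 * (k + 1)).factorial : ℝ) with hF
  have hF1 : 1 ≤ F := by
    rw [hF]; exact_mod_cast Nat.one_le_iff_ne_zero.mpr (Nat.factorial_ne_zero _)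
  have hFN : 1 ≤ F * N := by nlinarith
  have hFN0 : 0 ≤ F * N := by linarith
  by_cases hc : F * N ≤ s ^ 2
  · -- large sum
    have hs1 : 1 ≤ |s| := by
      rw [← one_le_sq_iff_one_le_abs]; linarith
    have hsN : N ≤ |s| ^ 2 := by rw [sq_abs]; nlinarith
    have h := abs_ee_sub_le x hx hs1 le_rfl hsN (2 * k)
    have h2 : 2 * k + 2 = 2 * (k + 1) := by ring
    rw [h2] at h
    have h3 := (abs_le.mp h).1
    have h4 : s ^ (2 * (k + 1)) / F = |s| ^ (2 * k) * (s ^ 2 / F) := by
      rw [pow_mul |s|, sq_abs, ← pow_mul]; ring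
    have h5 : N ≤ s ^ 2 / F := by
      rw [le_div_iff₀ (by linarith)]; linarith
    have h6 : (0 : ℝ) ≤ |s| ^ (2 * k) := by positivity
    have h7 : 0 ≤ ee x (2 * (k + 1)) := by
      have : s ^ (2 * (k + 1)) / F - N * |s| ^ (2 * k) ≤ ee x (2 * (k + 1)) := by linarith
      rw [h4] at this
      nlinarith
    have h8 : 0 ≤ (F * N) ^ (k + 1) := by positivity
    linarith
  · -- small sum
    push Not at hc
    have hM1 : 1 ≤ Real.sqrt (F * N) := by
      rw [Real.one_le_sqrt]; exact hFN
    have hMs : |s| ≤ Real.sqrt (F * N) := by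
      apply Real.abs_le_sqrt hc.le
    have hMN : N ≤ Real.sqrt (F * N) ^ 2 := by
      rw [Real.sq_sqrt hFN0]; nlinarith
    have h := abs_ee_le x hx hM1 hMs hMN (2 * (k + 1))
    rw [pow_mul, Real.sq_sqrt hFN0] at h
    exact (abs_le.mp h).1

end

end Pool.Agent.Tang
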