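import Pool.Agent.Tang.Comb
import Pool.Agent.Tang.Defs

/-!
# Tangency graphs: the embedding
-/

set_option autoImplicit false

namespace Pool.Agent.Tang

open Finset

section

variable {q t : ℕ} [Fact q.Prime]

/-- index set -/
abbrev II (q : ℕ) := Fin q × ZMod q × ZMod q

lemma card_II : Fintype.card (II q) = q ^ 3 := by
  rw [Fintype.card_prod, Fintype.card_prod, Fintype.card_fin, ZMod.card]; ring

/-- indicator of the graph -/
noncomputable def raw (z : Fin q → YY q t) (p : II q) : ℝ :=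
  if ev (z p.1) p.2.1 = p.2.2 then 1 else 0

/-- number of disagreements -/
noncomputable def NN (z : Fin q → YY q t) : ℝ := ∑ i, ((q : ℝ) - (Zr (z i)).card)

lemma sum_ind (a b : ZMod q) :
    ∑ v : ZMod q, ((if a = v then (1 : ℝ) else 0) - (if b = v then 1 else 0)) ^ 2 =
      if a - b = 0 then 0 else 2 := by
  by_cases h : a = b
  · subst h; simp
  · rw [if_neg (sub_ne_zero.mpr h)]
    have h1 : ∀ v : ZMod q, ((if a = v then (1 : ℝ) else 0) - (if b = v then 1 else 0)) ^ 2 =
        (if a = v then (1 : ℝ) else 0) + (if b = v then 1 else 0) := by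
      intro v
      by_cases ha : a = v
      · have hb : b ≠ v := fun hb => h (ha.trans hb.symm)
        simp [ha, hb]
      · by_cases hb : b = v
        · simp [ha, hb]
        · simp [ha, hb]
    simp_rw [h1]
    rw [sum_add_distrib, sum_ite_eq, sum_ite_eq]
    simp; norm_num

lemma sum_raw (x z : Fin q → YY q t) :
    ∑ p : II q, (raw x p - raw z p) ^ 2 = 2 * NN (x - z) := by
  unfold NN
  rw [Fintype.sum_prod_type, mul_sum]
  apply sum_congr rfl
  intro i _
  rw [Fintype.sum_prod_type]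
  simp only [raw]
  simp_rw [sum_ind, ← ev_sub]
  have h1 : ∀ u : ZMod q, (if ev (x i - z i) u = 0 then (0 : ℝ) else 2) =
      2 - 2 * (if ev (x i - z i) u = 0 then 1 else 0) := by
    intro u; split_ifs <;> norm_num
  simp_rw [h1]
  rw [sum_sub_distrib, ← mul_sum]
  have h2 : ∑ u : ZMod q, (if ev (x i - z i) u = 0 then (1 : ℝ) else 0) =
      ((Zr ((x - z) i)).card : ℝ) := by
    unfold Zr
    rw [card_filter]
    push_cast
    rfl
  rw [h2]
  simp only [sum_const, card_univ, ZMod.card, nsmul_eq_mul]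
  ring

lemma term_nonneg (z : Fin q → YY q t) (i : Fin q) : (0 : ℝ) ≤ (q : ℝ) - (Zr (z i)).card := by
  have : (Zr (z i)).card ≤ q := by
    calc (Zr (z i)).card ≤ (univ : Finset (ZMod q)).card := card_le_univ _
      _ = q := by rw [card_univ, ZMod.card]
  have h2 : ((Zr (z i)).card : ℝ) ≤ q := by exact_mod_cast this
  linarith

lemma NN_ge (z : Fin q → YY q t) (ht : t ≤ q) (r : ℕ)
    (h : r ≤ (univ.filter (fun i => z i ≠ 0)).card) : (r : ℝ) * ((q : ℝ) - t) ≤ NN z := by
  unfold NN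
  have ht' : (t : ℝ) ≤ q := by exact_mod_cast ht
  calc (r : ℝ) * ((q : ℝ) - t) ≤ ((univ.filter (fun i => z i ≠ 0)).card : ℝ) * ((q : ℝ) - t) := by
        apply mul_le_mul_of_nonneg_right _ (by linarith)
        exact_mod_cast h
    _ = ∑ _i ∈ univ.filter (fun i => z i ≠ 0), ((q : ℝ) - t) := by
        rw [sum_const, nsmul_eq_mul]
    _ ≤ ∑ i ∈ univ.filter (fun i => z i ≠ 0), ((q : ℝ) - (Zr (z i)).card) := by
        apply sum_le_sum
        intro i hi
        rw [mem_filter] at hi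
        have : ((Zr (z i)).card : ℝ) ≤ t := by exact_mod_cast card_Zr_le _ hi.2
        linarith
    _ ≤ _ := sum_le_univ_sum_of_nonneg (fun i => term_nonneg z i)

lemma NN_eq (z : Fin q → YY q t) (r : ℕ) (h : z ∈ WW (Fin q) (W0 q t) r) :
    NN z = (r : ℝ) * ((q : ℝ) - t) := by
  simp only [WW, mem_filter, mem_univ, true_and] at h
  unfold NN
  rw [← sum_filter_add_sum_filter_not univ (fun i => z i ≠ 0)]
  have h1 : ∑ i ∈ univ.filter (fun i => z i ≠ 0), ((q : ℝ) - (Zr (z i)).card) =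
      ∑ _i ∈ univ.filter (fun i => z i ≠ 0), ((q : ℝ) - t) := by
    apply sum_congr rfl
    intro i hi
    rw [mem_filter] at hi
    have := h.2 i hi.2
    simp only [W0, mem_filter, mem_univ, true_and] at this
    rw [this]
  have h2 : ∑ i ∈ univ.filter (fun i => ¬ z i ≠ 0), ((q : ℝ) - (Zr (z i)).card) = 0 := by
    apply sum_eq_zero
    intro i hi
    rw [mem_filter] at hi
    have h3 : z i = 0 := by
      by_contra h4; exact hi.2 h4
    rw [h3, Zr_zero, card_univ, ZMod.card]; ring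
  rw [h1, h2, add_zero, sum_const, h.1, nsmul_eq_mul]

/-- the embedding -/
noncomputable def phi (t : ℕ) {d : ℕ} (e : II q ↪ Fin d) (s : ℝ) (z : Fin q → YY q t) :
    EuclideanSpace ℝ (Fin d) :=
  WithLp.toLp 2 (fun j => s * Function.extend e (raw z) 0 j)

lemma dist_phi {d : ℕ} (e : II q ↪ Fin d) (s : ℝ) (x z : Fin q → YY q t) :
    dist (phi t e s x) (phi t e s z) ^ 2 = s ^ 2 * (2 * NN (x - z)) := by
  rw [EuclideanSpace.dist_eq, Real.sq_sqrt (by positivity)]
  rw [← sum_raw, mul_sum]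
  symm
  apply Fintype.sum_of_injective e e.injective
  · intro j hj
    have h1 : ∀ y : Fin q → YY q t, Function.extend e (raw y) 0 j = 0 := by
      intro y
      rw [Function.extend_apply' _ _ _ (fun ⟨a, ha⟩ => hj ⟨a, ha⟩)]
      rfl
    simp [phi, h1]
  · intro p
    simp only [phi, Real.dist_eq, sq_abs]
    rw [e.injective.extend_apply, e.injective.extend_apply]
    ring

end

/-- interiors of unit balls with centres at distance at least two are disjoint -/
lemma disjoint_of_dist {d : ℕ} (x y : EuclideanSpace ℝ (Fin d)) (h : 2 ≤ dist x y) :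
    Disjoint (interior (Metric.closedBall x 1)) (interior (Metric.closedBall y 1)) := by
  rw [interior_closedBall _ one_ne_zero, interior_closedBall _ one_ne_zero]
  apply Metric.ball_disjoint_ball
  linarith

/-- The geometric main theorem. -/
theorem geom_main (q l d : ℕ) [Fact q.Prime] (hl : 1 ≤ l) (hq : (4 * l) ^ (18 * l) ≤ q)
    (hd : q ^ 3 ≤ d) :
    ∃ C : Set (EuclideanSpace ℝ (Fin d)), C.Finite ∧ IsUnitBallSystem C ∧
      ∀ k : ℕ, (tangencyGraph C).Colorable k → (q : ℝ) ^ l ≤ (k : ℝ) ^ 2 := by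
  classical
  obtain ⟨X, hX1, hX2⟩ := comb_main q l hl hq
  have hq4 : 4 * l ≤ q := pow_ge_two hl hq
  have hqt : 4 * l < q := by
    have h0 : (4 * l) ^ 2 ≤ (4 * l) ^ (18 * l) := Nat.pow_le_pow_right (by omega) (by omega)
    nlinarith
  have hq2 : 2 ≤ q := (Fact.out : q.Prime).two_le
  have hXne : X.Nonempty := by
    by_contra hcon
    rw [not_nonempty_iff_eq_empty] at hcon
    have := hX2 1 (fun _ => 0) (by simp [hcon])
    have h2 : (2 : ℝ) ^ l ≤ (q : ℝ) ^ l :=
      pow_le_pow_left₀ (by norm_num) (by exact_mod_cast hq2) l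
    have h3 : (2 : ℝ) ^ 1 ≤ (2 : ℝ) ^ l := pow_le_pow_right₀ (by norm_num) hl
    simp at this
    linarith
  obtain ⟨x0, hx0⟩ := hXne
  have hcard : Fintype.card (II q) ≤ Fintype.card (Fin d) := by
    rw [card_II, Fintype.card_fin]; exact hd
  obtain ⟨e⟩ := Function.Embedding.nonempty_of_card_le hcard
  have hqt' : (0 : ℝ) < (q : ℝ) - (4 * l : ℕ) := by
    have : ((4 * l : ℕ) : ℝ) < q := by exact_mod_cast hqt
    linarith
  have hl0 : (0 : ℝ) < l := by exact_mod_cast (by omega : 0 < l)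
  set R : ℝ := (l : ℝ) * ((q : ℝ) - (4 * l : ℕ)) with hR
  have hR0 : 0 < R := by positivity
  set s : ℝ := Real.sqrt (1 / R) with hs
  have hs2 : s ^ 2 = 1 / R := Real.sq_sqrt (by positivity)
  set F : (Fin q → YY q (4 * l)) → EuclideanSpace ℝ (Fin d) := phi (4 * l) e s with hF
  have hge : ∀ x ∈ X, ∀ z ∈ X, x ≠ z → 2 ≤ dist (F x) (F z) := by
    intro x hx z hz hxz
    have h1 := hX1 z hz x hx hxz.symm
    have h2 := NN_ge (x - z) hqt.le (2 * l) h1
    have h3 : (2 : ℝ) ^ 2 ≤ dist (F x) (F z) ^ 2 := by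
      rw [hF, dist_phi, hs2]
      push_cast at h2
      have h4 : 2 * R ≤ NN (x - z) := by rw [hR]; push_cast; linarith
      rw [one_div, ← div_eq_inv_mul, le_div_iff₀ hR0]
      linarith
    exact le_of_sq_le_sq h3 dist_nonneg
  have heq : ∀ x z : Fin q → YY q (4 * l), z - x ∈ WW (Fin q) (W0 q (4 * l)) (2 * l) →
      dist (F x) (F z) = 2 := by
    intro x z h
    have h2 := NN_eq _ _ h
    have h3 : dist (F z) (F x) ^ 2 = (2 : ℝ) ^ 2 := by
      rw [hF, dist_phi, hs2, h2]
      push_cast at hR ⊢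
      have h4 : (2 * ((2 * (l : ℝ)) * ((q : ℝ) - 4 * l))) = 4 * R := by rw [hR]; ring
      rw [h4]
      field_simp
      norm_num
    have h4 := (sq_eq_sq₀ dist_nonneg (by norm_num)).mp h3
    rw [dist_comm]; exact h4
  refine ⟨F '' (X : Set (Fin q → YY q (4 * l))), X.finite_toSet.image F, ?_, ?_⟩
  · rintro _ ⟨x, hx, rfl⟩ _ ⟨z, hz, rfl⟩ hxz
    exact disjoint_of_dist _ _ (hge x hx z hz (fun h => hxz (by rw [h])))
  · rintro k ⟨f⟩
    let col : (Fin q → YY q (4 * l)) → Fin k := fun z =>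
      if h : z ∈ X then f ⟨F z, ⟨z, h, rfl⟩⟩ else f ⟨F x0, ⟨x0, hx0, rfl⟩⟩
    apply hX2 k col
    intro x hx z hz hxz hW
    simp only [col, hx, hz, dif_pos]
    apply f.valid
    exact heq x z hW

end Pool.Agent.Tang
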