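import Pool.Agent.Tang.Geom

/-!
# Tangency graphs: asymptotic form
-/

set_option autoImplicit false

namespace Pool.Agent.Tang

open Finset Filter

/-- between cubes: a prime `q` with `q ^ 3 ≤ d < 8 q ^ 3` -/
lemma exists_prime_cube (d : ℕ) (hd : 8 ≤ d) : ∃ q : ℕ, q.Prime ∧ q ^ 3 ≤ d ∧ d < 8 * q ^ 3 := by
  have hex : ∃ n : ℕ, d < (2 * (n + 1)) ^ 3 := ⟨d, by
    calc d < 2 * (d + 1) := by omega
      _ = (2 * (d + 1)) ^ 1 := (pow_one _).symm
      _ ≤ (2 * (d + 1)) ^ 3 := Nat.pow_le_pow_right (by omega) (by norm_num)⟩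
  classical
  set n := Nat.find hex with hn
  have h1 : d < (2 * (n + 1)) ^ 3 := Nat.find_spec hex
  have hn0 : n ≠ 0 := by
    intro h0
    rw [h0] at h1
    norm_num at h1
    omega
  have h2 : (2 * n) ^ 3 ≤ d := by
    have := Nat.find_min hex (m := n - 1) (by omega)
    rw [not_lt] at this
    have e : n - 1 + 1 = n := by omega
    rwa [e] at this
  obtain ⟨q, hq, hq1, hq2⟩ := Nat.exists_prime_lt_and_le_two_mul n hn0
  refine ⟨q, hq, ?_, ?_⟩
  · exact (Nat.pow_le_pow_left hq2 3).trans h2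
  · calc d < (2 * (n + 1)) ^ 3 := h1
      _ ≤ (2 * q) ^ 3 := Nat.pow_le_pow_left (by omega) 3
      _ = 8 * q ^ 3 := by ring

/-- the explicit bound, under size conditions on `log d` -/
theorem explicit_bound (d : ℕ) (hx : 9 ≤ Real.log d)
    (hlx : 144 * Real.log (Real.log d) ≤ Real.log d) :
    ∃ C : Set (EuclideanSpace ℝ (Fin d)), C.Finite ∧ IsUnitBallSystem C ∧
      ∀ k : ℕ, (tangencyGraph C).Colorable k →
        Real.exp (Real.log d ^ 2 / (1152 * Real.log (Real.log d))) ≤ k := by
  set x : ℝ := Real.log d with hxdef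
  have hd0 : (0 : ℝ) < d := by
    by_contra hcon
    push Not at hcon
    have h0 : d = 0 := by
      have : (d : ℝ) = 0 := le_antisymm hcon (by positivity)
      exact_mod_cast this
    rw [h0] at hxdef
    simp at hxdef
    linarith
  have hdx : (d : ℝ) = Real.exp x := (Real.exp_log hd0).symm
  have hx0 : 0 < x := by linarith
  have hL1 : 1 < Real.log x := by
    rw [Real.lt_log_iff_exp_lt hx0]
    have := Real.exp_one_lt_d9
    linarith
  set L : ℝ := Real.log x with hL
  have hL0 : 0 < L := by linarith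
  have hd8 : 8 ≤ d := by
    have h1 : (8 : ℝ) ≤ d := by
      rw [hdx]
      have := Real.add_one_le_exp x
      linarith
    exact_mod_cast h1
  obtain ⟨q, hqp, hq1, hq2⟩ := exists_prime_cube d hd8
  haveI : Fact q.Prime := ⟨hqp⟩
  have hq0 : (0 : ℝ) < q := by exact_mod_cast hqp.pos
  -- log q
  have hlogq : x / 4 ≤ Real.log q := by
    have h1 : (d : ℝ) < 8 * (q : ℝ) ^ 3 := by exact_mod_cast hq2
    have h2 : x < Real.log (8 * (q : ℝ) ^ 3) := Real.log_lt_log hd0 h1
    rw [Real.log_mul (by norm_num) (by positivity), Real.log_pow] at h2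
    have h3 : Real.log 8 = 3 * Real.log 2 := by
      rw [show (8 : ℝ) = 2 ^ 3 by norm_num, Real.log_pow]; norm_num
    have h4 := Real.log_two_lt_d9
    push_cast at h2
    linarith
  -- the parameter l
  set r : ℝ := x / (72 * L) with hr
  have hr2 : 2 ≤ r := by
    rw [hr, le_div_iff₀ (by positivity)]; linarith
  set l : ℕ := ⌊r⌋₊ with hl
  have hlr : (l : ℝ) ≤ r := Nat.floor_le (by linarith)
  have hlr2 : r - 1 < l := Nat.sub_one_lt_floor r
  have hl1 : 1 ≤ l := by
    have : (1 : ℝ) < l := by linarith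
    have h2 : (1 : ℝ) ≤ l := this.le
    exact_mod_cast h2
  have hl0 : (0 : ℝ) < l := by exact_mod_cast (by omega : 0 < l)
  have h4l : (4 : ℝ) * l ≤ x := by
    have h1 : r ≤ x / 72 := by
      rw [hr]
      apply div_le_div_of_nonneg_left hx0.le (by norm_num)
      linarith
    linarith
  have hq : (4 * l) ^ (18 * l) ≤ q := by
    have h1 : Real.log (((4 * l) ^ (18 * l) : ℕ) : ℝ) ≤ Real.log q := by
      push_cast
      rw [Real.log_pow]
      push_cast
      calc 18 * (l : ℝ) * Real.log (4 * l) ≤ 18 * r * L := by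
            apply mul_le_mul (by linarith) _ _ (by linarith)
            · exact Real.log_le_log (by positivity) h4l
            · apply Real.log_nonneg
              have : (1 : ℝ) ≤ l := by exact_mod_cast hl1
              linarith
        _ = x / 4 := by rw [hr]; field_simp; norm_num
        _ ≤ Real.log q := hlogq
    have h2 : (0 : ℝ) < (((4 * l) ^ (18 * l) : ℕ) : ℝ) := by
      have : 0 < (4 * l) ^ (18 * l) := Nat.pos_of_ne_zero (by positivity)
      exact_mod_cast this
    have h3 := (Real.log_le_log_iff h2 hq0).mp h1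
    exact_mod_cast h3
  obtain ⟨C, hC1, hC2, hC3⟩ := geom_main q l d hl1 hq hq1
  refine ⟨C, hC1, hC2, fun k hk => ?_⟩
  have h1 := hC3 k hk
  have h2 : Real.exp (x ^ 2 / (1152 * L)) ^ 2 ≤ (k : ℝ) ^ 2 := by
    apply le_trans _ h1
    rw [← Real.exp_log hq0, ← Real.exp_nat_mul, ← Real.exp_nat_mul, Real.exp_le_exp]
    have h3 : r / 2 ≤ l := by linarith
    calc ((2 : ℕ) : ℝ) * (x ^ 2 / (1152 * L)) = r / 2 * (x / 4) := by
          rw [hr]; push_cast; field_simp; norm_num
      _ ≤ l * Real.log q := mul_le_mul h3 hlogq (by positivity) (by positivity)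
  have hk0 : (0 : ℝ) ≤ k := by positivity
  exact le_of_sq_le_sq h2 hk0

/-- The size conditions hold for all large `d`. -/
lemma eventually_size (B : ℝ) : ∀ᶠ d : ℕ in atTop, 9 ≤ Real.log d ∧
    144 * Real.log (Real.log d) ≤ Real.log d ∧ B * Real.log (Real.log d) ≤ Real.log d := by
  have h1 : Tendsto (fun d : ℕ => Real.log (d : ℝ)) atTop atTop :=
    Real.tendsto_log_atTop.comp tendsto_natCast_atTop_atTop
  have hB : ∀ b : ℝ, ∀ᶠ y : ℝ in atTop, b * Real.log y ≤ y := by
    intro b
    have h2 := Real.isLittleO_log_id_atTop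
    have h3 := h2.bound (c := 1 / (|b| + 1)) (by positivity)
    filter_upwards [h3, eventually_ge_atTop (1 : ℝ)] with y hy hy1
    rw [Real.norm_eq_abs, id, Real.norm_eq_abs, abs_of_pos (by linarith : (0 : ℝ) < y)] at hy
    have h4 : (|b| + 1) * |Real.log y| ≤ y := by
      have h5 : (0 : ℝ) < |b| + 1 := by positivity
      calc (|b| + 1) * |Real.log y| ≤ (|b| + 1) * (1 / (|b| + 1) * y) :=
            mul_le_mul_of_nonneg_left hy h5.le
        _ = y := by field_simp
    calc b * Real.log y ≤ |b * Real.log y| := le_abs_self _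
      _ = |b| * |Real.log y| := abs_mul _ _
      _ ≤ (|b| + 1) * |Real.log y| := by
          apply mul_le_mul_of_nonneg_right _ (abs_nonneg _)
          linarith
      _ ≤ y := h4
  exact h1.eventually ((eventually_ge_atTop 9).and ((hB 144).and (hB B)))

theorem main_quasi : ∃ d₀ : ℕ, ∀ d : ℕ, d₀ ≤ d →
    ∃ C : Set (EuclideanSpace ℝ (Fin d)), C.Finite ∧ IsUnitBallSystem C ∧
      ∀ k : ℕ, (tangencyGraph C).Colorable k →
        Real.exp (Real.log d ^ 2 / (1152 * Real.log (Real.log d))) ≤ k := by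
  obtain ⟨d₀, h⟩ := eventually_atTop.mp (eventually_size 0)
  exact ⟨d₀, fun d hd => explicit_bound d (h d hd).1 (h d hd).2.1⟩

theorem main_poly (K : ℕ) : ∃ d₀ : ℕ, ∀ d : ℕ, d₀ ≤ d →
    ∃ C : Set (EuclideanSpace ℝ (Fin d)), C.Finite ∧ IsUnitBallSystem C ∧
      ∀ k : ℕ, (tangencyGraph C).Colorable k → d ^ K ≤ k := by
  obtain ⟨d₀, h⟩ := eventually_atTop.mp (eventually_size (1152 * K))
  refine ⟨d₀, fun d hd => ?_⟩
  obtain ⟨h1, h2, h3⟩ := h d hd
  obtain ⟨C, hC1, hC2, hC3⟩ := explicit_bound d h1 h2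
  refine ⟨C, hC1, hC2, fun k hk => ?_⟩
  have h4 := hC3 k hk
  have hx0 : 0 < Real.log d := by linarith
  have hd0 : (0 : ℝ) < d := by
    by_contra hcon
    push Not at hcon
    have h0 : d = 0 := by
      have : (d : ℝ) = 0 := le_antisymm hcon (by positivity)
      exact_mod_cast this
    rw [h0] at hx0
    simp at hx0
  have hL : 0 < Real.log (Real.log d) := Real.log_pos (by linarith)
  have h5 : (d : ℝ) ^ K ≤ k := by
    apply le_trans _ h4
    rw [← Real.exp_log hd0, ← Real.exp_nat_mul, Real.exp_le_exp, Real.exp_log hd0]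
    rw [le_div_iff₀ (by positivity)]
    have h6 : (1152 * K * Real.log (Real.log d)) * Real.log d ≤ Real.log d * Real.log d :=
      mul_le_mul_of_nonneg_right h3 hx0.le
    calc K * Real.log d * (1152 * Real.log (Real.log d)) =
          (1152 * K * Real.log (Real.log d)) * Real.log d := by ring
      _ ≤ Real.log d * Real.log d := h6
      _ = Real.log d ^ 2 := by ring
  exact_mod_cast h5

end Pool.Agent.Tang
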